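import Pool.Agent.XPM.St

set_option autoImplicit false

/-!
MP_b22a07_co, THEOREM E, module AV: average over shifts and signs.
-/

namespace Pool.Agent.XPM

open Finset

private lemma AV_sg_sq (b : Bool) : sg b ^ 2 = 1 := by
  unfold sg; cases b <;> norm_num

private lemma AV_shift {d : ℕ} [NeZero d] (y : Fin d → ℝ) (s : Fin d) :
    ∑ i, y (i + s) ^ 2 = ∑ i, y i ^ 2 :=
  Equiv.sum_comp (Equiv.addRight s) (fun j => y j ^ 2)

private lemma AV_shift' {d : ℕ} [NeZero d] (y : Fin d → ℝ) (i : Fin d) :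
    ∑ s, y (i + s) ^ 2 = ∑ i, y i ^ 2 :=
  Equiv.sum_comp (Equiv.addLeft i) (fun j => y j ^ 2)

private lemma AV_one (hU2 : St_U2) (hSG : St_SG) {d : ℕ} [NeZero d] (x y : Fin d → ℝ) (κ : ℝ)
    (hx : ∑ i, x i ^ 2 = 1) (hy : ∑ i, y i ^ 2 = 1) (hκ : ∀ i, (y i) ^ 2 ≤ κ) (s : Fin d) :
    (2 : ℝ) ^ d * (1 - (∑ i, (x i * y (i + s)) ^ 2) / 8
        - 15 / 16 * (κ * ∑ i, (x i * y (i + s)) ^ 2))
      ≤ ∑ ε : Fin d → Bool, ff (∑ i, x i * (sg (ε i) * y (i + s))) := by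
  set S : ℝ := ∑ i, (x i * y (i + s)) ^ 2 with hS
  have hS0 : 0 ≤ S := Finset.sum_nonneg (fun i _ => sq_nonneg _)
  have hSk : S ≤ κ := by
    calc S ≤ ∑ i, x i ^ 2 * κ := by
            apply Finset.sum_le_sum
            intro i _
            rw [mul_pow]
            exact mul_le_mul_of_nonneg_left (hκ _) (sq_nonneg _)
      _ = κ := by rw [← Finset.sum_mul, hx, one_mul]
  obtain ⟨h1, h2, h3, h4⟩ := hSG d (fun i => x i * y (i + s))
  have hT : ∀ ε : Fin d → Bool, ∑ i, x i * (sg (ε i) * y (i + s))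
      = ∑ i, sg (ε i) * (x i * y (i + s)) := by
    intro ε
    apply Finset.sum_congr rfl
    intro i _
    ring
  have hbd : ∀ ε : Fin d → Bool, (∑ i, sg (ε i) * (x i * y (i + s))) ^ 2 ≤ 1 := by
    intro ε
    have hcs := Finset.sum_mul_sq_le_sq_mul_sq Finset.univ x (fun i => sg (ε i) * y (i + s))
    have e1 : ∑ i, (sg (ε i) * y (i + s)) ^ 2 = 1 := by
      rw [← hy, ← AV_shift y s]
      apply Finset.sum_congr rfl
      intro i _
      rw [mul_pow, AV_sg_sq, one_mul]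
    rw [e1, hx, hT ε] at hcs
    linarith
  have hpt : ∀ ε : Fin d → Bool,
      1 - (∑ i, sg (ε i) * (x i * y (i + s))) / 2
        - (∑ i, sg (ε i) * (x i * y (i + s))) ^ 2 / 8
        - (∑ i, sg (ε i) * (x i * y (i + s))) ^ 3 / 16
        - 5 / 16 * (∑ i, sg (ε i) * (x i * y (i + s))) ^ 4
      ≤ ff (∑ i, x i * (sg (ε i) * y (i + s))) := by
    intro ε
    rw [hT ε]
    have hb := abs_le_of_sq_le_sq' (by simpa using hbd ε : _ ≤ (1:ℝ) ^ 2) zero_le_one
    have := hU2 _ hb.1 hb.2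
    unfold t3 at this
    exact this
  have hsum := Finset.sum_le_sum (fun ε (_ : ε ∈ (Finset.univ : Finset (Fin d → Bool))) => hpt ε)
  refine le_trans ?_ hsum
  rw [Finset.sum_sub_distrib, Finset.sum_sub_distrib, Finset.sum_sub_distrib,
    Finset.sum_sub_distrib, ← Finset.sum_div, ← Finset.sum_div, ← Finset.sum_div,
    ← Finset.mul_sum, h1, h2, h3]
  have hc : ∑ _ε : Fin d → Bool, (1 : ℝ) = 2 ^ d := by
    simp
  rw [hc]
  have h2d : (0 : ℝ) < 2 ^ d := by positivity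
  have hS2 : S ^ 2 ≤ κ * S := by nlinarith
  have h5 : 3 * (2 : ℝ) ^ d * S ^ 2 ≤ 3 * 2 ^ d * (κ * S) :=
    mul_le_mul_of_nonneg_left hS2 (by positivity)
  have h4' : ∑ ε : Fin d → Bool, (∑ i, sg (ε i) * (x i * y (i + s))) ^ 4 ≤ 3 * 2 ^ d * (κ * S) :=
    le_trans h4 h5
  have h6 : (2 : ℝ) ^ d * (1 - S / 8 - 15 / 16 * (κ * S))
      = 2 ^ d - 2 ^ d * S / 8 - 5 / 16 * (3 * 2 ^ d * (κ * S)) := by ring
  rw [h6]
  linarith

theorem thm_AV (hU2 : St_U2) (hSG : St_SG) : St_AV := by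
  intro d _ x y κ hx hy hκ
  have h1 := Finset.sum_le_sum
    (fun s (_ : s ∈ (Finset.univ : Finset (Fin d))) => AV_one hU2 hSG x y κ hx hy hκ s)
  refine le_trans (le_of_eq ?_) h1
  have hS : ∑ s : Fin d, ∑ i, (x i * y (i + s)) ^ 2 = 1 := by
    rw [Finset.sum_comm]
    calc ∑ i, ∑ s : Fin d, (x i * y (i + s)) ^ 2 = ∑ i, x i ^ 2 := by
            apply Finset.sum_congr rfl
            intro i _
            have : ∑ s : Fin d, (x i * y (i + s)) ^ 2 = x i ^ 2 * ∑ s : Fin d, y (i + s) ^ 2 := by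
              rw [Finset.mul_sum]
              apply Finset.sum_congr rfl
              intro s _
              rw [mul_pow]
            rw [this, AV_shift' y i, hy, mul_one]
      _ = 1 := hx
  rw [← Finset.mul_sum, Finset.sum_sub_distrib, Finset.sum_sub_distrib, ← Finset.sum_div,
    ← Finset.mul_sum, ← Finset.mul_sum, hS]
  simp

end Pool.Agent.XPM
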