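import Pool.Agent.XPM.St

set_option autoImplicit false

/-!
`thm_CT : St_TO → St_GR → St_CT` (copies of the system).
-/

namespace Pool.Agent.XPM

open Finset

private theorem CT_inner {d : ℕ} (x y : Fin d → ℝ) :
    (inner ℝ (WithLp.toLp 2 x : EuclideanSpace ℝ (Fin d)) (WithLp.toLp 2 y) : ℝ)
      = ∑ c, x c * y c := by
  rw [PiLp.inner_apply]
  refine sum_congr rfl fun c _ => ?_
  simp [mul_comm]

private theorem CT_norm {d : ℕ} (x : Fin d → ℝ) (h : ∑ c, x c ^ 2 = 1) :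
    ‖(WithLp.toLp 2 x : EuclideanSpace ℝ (Fin d))‖ = 1 := by
  have h1 : ‖(WithLp.toLp 2 x : EuclideanSpace ℝ (Fin d))‖ ^ 2 = 1 := by
    rw [← real_inner_self_eq_norm_sq, CT_inner, ← h]
    refine sum_congr rfl fun c _ => ?_
    ring
  nlinarith [norm_nonneg (WithLp.toLp 2 x : EuclideanSpace ℝ (Fin d))]

theorem thm_CT (hTO : St_TO) (hGR : St_GR) : St_CT := by
  intro p m s hp hp3 hm hs
  have hTO' := hTO p m hp hp3 hm
  obtain ⟨n0, hn0⟩ : ∃ n0 : ℕ, n0 = p ^ 2 * (p - 1) := ⟨_, rfl⟩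
  have hn0pos : 0 < n0 := by
    rw [hn0]
    have h1 : 0 < p - 1 := by omega
    have h2 : 0 < p := by omega
    positivity
  have hcast : ((n0 : ℕ) : ℝ) = (p : ℝ) ^ 2 * ((p : ℝ) - 1) := by
    rw [hn0]
    have h1 : 1 ≤ p := by omega
    push_cast [Nat.cast_sub h1]
    ring
  rw [← hn0] at hTO' ⊢
  rw [← hcast] at hTO' ⊢
  obtain ⟨Y, hY1, hY2, hY3⟩ := hTO'
  have : NeZero (m * n0) := ⟨(Nat.mul_pos hm hn0pos).ne'⟩
  obtain ⟨X, hX1, hX2, hX3⟩ := hGR (m * n0) (m * p ^ 4) Y (2 / m) hY1 hY2 s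
  refine ⟨fun k => WithLp.toLp 2 (X (finProdFinEquiv.symm k).1 (finProdFinEquiv.symm k).2),
    fun k => CT_norm _ (hX1 _ _), ?_⟩
  have hsum : (∑ k : Fin (s * (m * p ^ 4)), ∑ l : Fin (s * (m * p ^ 4)), ff (inner ℝ
        (WithLp.toLp 2 (X (finProdFinEquiv.symm k).1 (finProdFinEquiv.symm k).2) :
          EuclideanSpace ℝ (Fin (m * n0)))
        (WithLp.toLp 2 (X (finProdFinEquiv.symm l).1 (finProdFinEquiv.symm l).2))))
      = (∑ a, ∑ b, if a = b then 0 else ∑ i, ∑ j, ff (∑ c, X a i c * X b j c))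
        + (s : ℝ) * ∑ i, ∑ j, ff (∑ c, Y i c * Y j c) := by
    have e1 : (∑ k : Fin (s * (m * p ^ 4)), ∑ l : Fin (s * (m * p ^ 4)), ff (inner ℝ
          (WithLp.toLp 2 (X (finProdFinEquiv.symm k).1 (finProdFinEquiv.symm k).2) :
            EuclideanSpace ℝ (Fin (m * n0)))
          (WithLp.toLp 2 (X (finProdFinEquiv.symm l).1 (finProdFinEquiv.symm l).2))))
        = ∑ u : Fin s × Fin (m * p ^ 4), ∑ v : Fin s × Fin (m * p ^ 4),
          ff (∑ c, X u.1 u.2 c * X v.1 v.2 c) := by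
      rw [← Equiv.sum_comp finProdFinEquiv]
      refine sum_congr rfl fun u _ => ?_
      rw [← Equiv.sum_comp finProdFinEquiv]
      refine sum_congr rfl fun v _ => ?_
      rw [CT_inner, Equiv.symm_apply_apply, Equiv.symm_apply_apply]
    rw [e1, Fintype.sum_prod_type]
    have e2 : ∀ a : Fin s, (∑ i : Fin (m * p ^ 4), ∑ v : Fin s × Fin (m * p ^ 4),
          ff (∑ c, X a i c * X v.1 v.2 c))
        = (∑ b, if a = b then 0 else ∑ i, ∑ j, ff (∑ c, X a i c * X b j c))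
          + ∑ i, ∑ j, ff (∑ c, Y i c * Y j c) := by
      intro a
      have e3 : (∑ i : Fin (m * p ^ 4), ∑ v : Fin s × Fin (m * p ^ 4),
          ff (∑ c, X a i c * X v.1 v.2 c))
          = ∑ b : Fin s, ∑ i, ∑ j, ff (∑ c, X a i c * X b j c) := by
        rw [sum_comm' (t' := univ) (s' := fun _ => univ) (by simp)]
        rw [Fintype.sum_prod_type]
        refine sum_congr rfl fun b _ => ?_
        rw [sum_comm]
      have e4 : (∑ i, ∑ j, ff (∑ c, X a i c * X a j c)) = ∑ i, ∑ j, ff (∑ c, Y i c * Y j c) := by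
        refine sum_congr rfl fun i _ => sum_congr rfl fun j _ => ?_
        rw [hX2]
      rw [e3, ← e4]
      have e5 : (∑ b : Fin s, ∑ i, ∑ j, ff (∑ c, X a i c * X b j c))
          = ∑ b : Fin s, ((if a = b then 0 else ∑ i, ∑ j, ff (∑ c, X a i c * X b j c))
            + if a = b then ∑ i, ∑ j, ff (∑ c, X a i c * X a j c) else 0) := by
        refine sum_congr rfl fun b _ => ?_
        by_cases hab : a = b
        · subst hab
          simp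
        · simp [hab]
      rw [e5, sum_add_distrib, sum_ite_eq]
      simp
    rw [sum_congr rfl fun a _ => e2 a, sum_add_distrib, sum_const, card_univ, Fintype.card_fin,
      nsmul_eq_mul]
  show _ ≤ ∑ k : Fin (s * (m * p ^ 4)), ∑ l : Fin (s * (m * p ^ 4)), ff (inner ℝ
        (WithLp.toLp 2 (X (finProdFinEquiv.symm k).1 (finProdFinEquiv.symm k).2) :
          EuclideanSpace ℝ (Fin (m * n0)))
        (WithLp.toLp 2 (X (finProdFinEquiv.symm l).1 (finProdFinEquiv.symm l).2)))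
  rw [hsum]
  obtain ⟨T, hT⟩ : ∃ T : ℝ, T = ∑ i, ∑ j, ff (∑ c, Y i c * Y j c) := ⟨_, rfl⟩
  obtain ⟨U, hU⟩ : ∃ U : ℝ, U = ∑ a, ∑ b, if a = b then 0 else
    ∑ i, ∑ j, ff (∑ c, X a i c * X b j c) := ⟨_, rfl⟩
  rw [← hT] at hY3 ⊢
  rw [← hU] at hX3 ⊢
  obtain ⟨B, hB⟩ : ∃ B : ℝ, B = 5 / 16 + (p : ℝ) / ((p : ℝ) - 1) ^ 2 := ⟨_, rfl⟩
  rw [← hB] at hY3 ⊢
  have hM : (((m * p ^ 4 : ℕ)) : ℝ) = (m : ℝ) * (p : ℝ) ^ 4 := by push_cast; ring
  have hD : (((m * n0 : ℕ)) : ℝ) = (m : ℝ) * (n0 : ℝ) := by push_cast; ring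
  rw [hM, hD] at hX3
  obtain ⟨M, hM'⟩ : ∃ M : ℝ, M = (m : ℝ) * (p : ℝ) ^ 4 := ⟨_, rfl⟩
  rw [← hM'] at hX3 hY3 ⊢
  have hmr : (0 : ℝ) < m := by exact_mod_cast hm
  have hnr : (0 : ℝ) < n0 := by exact_mod_cast hn0pos
  have hsr : (1 : ℝ) ≤ s := by exact_mod_cast hs
  have h1 : (s : ℝ) * (M ^ 2 * (1 - 1 / (8 * (m * n0))) - B * M) ≤ s * T :=
    mul_le_mul_of_nonneg_left hY3 (by linarith)
  have hε : (15 / 16 : ℝ) * (2 / m) / (m * n0) = 15 / 8 * (n0 / (m * n0) ^ 2) := by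
    field_simp
    ring
  rw [hε] at hX3
  have hε2 : 2 * (n0 : ℝ) / (m * n0) ^ 2 = 2 * (n0 / (m * n0) ^ 2) := by ring
  rw [hε2]
  obtain ⟨q, hq⟩ : ∃ q : ℝ, q = (n0 : ℝ) / (m * n0) ^ 2 := ⟨_, rfl⟩
  have hq0 : 0 ≤ q := by rw [hq]; positivity
  rw [← hq] at hX3 ⊢
  have h2 : (0 : ℝ) ≤ s * M ^ 2 * q * (s / 8 + 15 / 8) := by positivity
  nlinarith [h1, hX3, h2]

end Pool.Agent.XPM
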