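import Pool.Agent.XPM.St

set_option autoImplicit false

/-!
MP_b22a07_co, THEOREM E, module EM: `ℝ^{d'}` in `ℝ^d`.
-/

namespace Pool.Agent.XPM

theorem thm_EM : St_EM := by
  intro d d' N X hd
  obtain ⟨c, rfl⟩ := Nat.exists_eq_add_of_le hd
  refine ⟨fun i => WithLp.toLp 2 (Fin.append (fun l => X i l) fun _ : Fin c => 0), fun i j => ?_⟩
  rw [PiLp.inner_apply, PiLp.inner_apply, Fin.sum_univ_add]
  simp [Fin.append_left, Fin.append_right]

end Pool.Agent.XPM
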