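import Pool.Agent.XPM.St

set_option autoImplicit false

/-!
MP_b22a07_co, THEOREM E, module GR: greedy union of `s` copies of a system of vectors.
-/

open Finset

namespace Pool.Agent.XPM

private lemma GR_sg (b : Bool) : sg b * sg b = 1 := by
  unfold sg; split_ifs <;> norm_num

private lemma GR_shift (d : ℕ) [NeZero d] (u : Fin d) (f : Fin d → ℝ) :
    ∑ c, f (c + u) = ∑ c, f c :=
  Equiv.sum_comp (Equiv.addRight u) f

private lemma GR_inner (d : ℕ) [NeZero d] (u : Fin d) (ε : Fin d → Bool) (y z : Fin d → ℝ) :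
    ∑ c, (sg (ε c) * y (c + u)) * (sg (ε c) * z (c + u)) = ∑ c, y c * z c := by
  rw [← GR_shift d u (fun c => y c * z c)]
  refine sum_congr rfl fun c _ => ?_
  have := GR_sg (ε c)
  calc (sg (ε c) * y (c + u)) * (sg (ε c) * z (c + u))
      = (sg (ε c) * sg (ε c)) * (y (c + u) * z (c + u)) := by ring
    _ = y (c + u) * z (c + u) := by rw [this, one_mul]

private lemma GR_step (h : St_AV) (d M : ℕ) [NeZero d] (Y : Fin M → Fin d → ℝ) (κ : ℝ)
    (hY : ∀ i, ∑ c, Y i c ^ 2 = 1) (hκ : ∀ i c, (Y i c) ^ 2 ≤ κ) (s : ℕ)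
    (X : Fin s → Fin M → Fin d → ℝ) (hX : ∀ a i, ∑ c, X a i c ^ 2 = 1) :
    ∃ z : Fin d × (Fin d → Bool),
      (s : ℝ) * (M : ℝ) ^ 2 * (1 - 1 / (8 * d) - 15 / 16 * κ / d)
        ≤ ∑ a, ∑ i, ∑ j, ff (∑ c, X a i c * (sg (z.2 c) * Y j (c + z.1))) := by
  have hd : (0 : ℝ) < d := by exact_mod_cast Nat.pos_of_ne_zero (NeZero.ne d)
  by_contra hcon
  push Not at hcon
  have h1 : ∑ z : Fin d × (Fin d → Bool), ∑ a, ∑ i, ∑ j,
      ff (∑ c, X a i c * (sg (z.2 c) * Y j (c + z.1)))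
      < ∑ z : Fin d × (Fin d → Bool),
        (s : ℝ) * (M : ℝ) ^ 2 * (1 - 1 / (8 * d) - 15 / 16 * κ / d) :=
    Finset.sum_lt_sum_of_nonempty Finset.univ_nonempty (fun z _ => hcon z)
  have h2 : (s : ℝ) * (M : ℝ) ^ 2 * ((2 : ℝ) ^ d * (d - 1 / 8 - 15 / 16 * κ))
      ≤ ∑ z : Fin d × (Fin d → Bool), ∑ a, ∑ i, ∑ j,
        ff (∑ c, X a i c * (sg (z.2 c) * Y j (c + z.1))) := by
    have h3 : ∀ a i j, (2 : ℝ) ^ d * (d - 1 / 8 - 15 / 16 * κ)
        ≤ ∑ z : Fin d × (Fin d → Bool), ff (∑ c, X a i c * (sg (z.2 c) * Y j (c + z.1))) := by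
      intro a i j
      rw [Fintype.sum_prod_type]
      exact h d (X a i) (Y j) κ (hX a i) (hY j) (hκ j)
    calc (s : ℝ) * (M : ℝ) ^ 2 * ((2 : ℝ) ^ d * (d - 1 / 8 - 15 / 16 * κ))
        = ∑ _a : Fin s, ∑ _i : Fin M, ∑ _j : Fin M, ((2 : ℝ) ^ d * (d - 1 / 8 - 15 / 16 * κ)) := by
          simp only [sum_const, card_univ, Fintype.card_fin, nsmul_eq_mul]
          ring
      _ ≤ ∑ a, ∑ i, ∑ j, ∑ z : Fin d × (Fin d → Bool),
            ff (∑ c, X a i c * (sg (z.2 c) * Y j (c + z.1))) :=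
          sum_le_sum fun a _ => sum_le_sum fun i _ => sum_le_sum fun j _ => h3 a i j
      _ = ∑ a, ∑ i, ∑ z : Fin d × (Fin d → Bool), ∑ j,
            ff (∑ c, X a i c * (sg (z.2 c) * Y j (c + z.1))) :=
          sum_congr rfl fun a _ => sum_congr rfl fun i _ => sum_comm
      _ = ∑ a, ∑ z : Fin d × (Fin d → Bool), ∑ i, ∑ j,
            ff (∑ c, X a i c * (sg (z.2 c) * Y j (c + z.1))) :=
          sum_congr rfl fun a _ => sum_comm
      _ = _ := sum_comm
  have h4 : ∑ z : Fin d × (Fin d → Bool),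
        (s : ℝ) * (M : ℝ) ^ 2 * (1 - 1 / (8 * d) - 15 / 16 * κ / d)
      = (s : ℝ) * (M : ℝ) ^ 2 * ((2 : ℝ) ^ d * (d - 1 / 8 - 15 / 16 * κ)) := by
    simp only [sum_const, card_univ, Fintype.card_prod, Fintype.card_fin, Fintype.card_fun,
      Fintype.card_bool, nsmul_eq_mul, Nat.cast_mul, Nat.cast_pow, Nat.cast_ofNat]
    field_simp
  rw [h4] at h1
  exact absurd h1 (not_lt.mpr h2)

theorem thm_GR (h : St_AV) : St_GR := by
  intro d M _ Y κ hY hκ s
  induction s with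
  | zero =>
    refine ⟨fun a => a.elim0, fun a => a.elim0, fun a => a.elim0, ?_⟩
    simp
  | succ s ih =>
    obtain ⟨X, hX1, hX2, hX3⟩ := ih
    obtain ⟨⟨u, ε⟩, hz⟩ := GR_step h d M Y κ hY hκ s X hX1
    simp only at hz
    set A : ℝ := 1 - 1 / (8 * d) - 15 / 16 * κ / d with hA
    set g : Fin M → Fin d → ℝ := fun j c => sg (ε c) * Y j (c + u) with hg
    have hg2 : ∀ i j, ∑ c, g i c * g j c = ∑ c, Y i c * Y j c := fun i j =>
      GR_inner d u ε (Y i) (Y j)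
    refine ⟨Fin.snoc (α := fun _ => Fin M → Fin d → ℝ) X g, ?_, ?_, ?_⟩
    · intro a i
      refine Fin.lastCases ?_ (fun a => ?_) a
      · rw [Fin.snoc_last]
        have h1 := hg2 i i
        have h2 := hY i
        simp only [pow_two] at h2 ⊢
        rw [h1, h2]
      · rw [Fin.snoc_castSucc]
        exact hX1 a i
    · intro a i j
      refine Fin.lastCases ?_ (fun a => ?_) a
      · rw [Fin.snoc_last]
        exact hg2 i j
      · rw [Fin.snoc_castSucc]
        exact hX2 a i j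
    · have hsym : ∑ b : Fin s, ∑ i, ∑ j, ff (∑ c, g i c * X b j c)
          = ∑ a : Fin s, ∑ i, ∑ j, ff (∑ c, X a i c * g j c) := by
        refine sum_congr rfl fun b _ => ?_
        rw [sum_comm]
        refine sum_congr rfl fun i _ => sum_congr rfl fun j _ => ?_
        congr 1
        refine sum_congr rfl fun c _ => ?_
        ring
      have htot : (∑ a : Fin (s + 1), ∑ b : Fin (s + 1), if a = b then (0 : ℝ) else
            ∑ i, ∑ j, ff (∑ c, (Fin.snoc (α := fun _ => Fin M → Fin d → ℝ) X g a : Fin M → Fin d → ℝ) i c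
              * (Fin.snoc (α := fun _ => Fin M → Fin d → ℝ) X g b : Fin M → Fin d → ℝ) j c))
          = (∑ a : Fin s, ∑ b : Fin s, if a = b then (0 : ℝ) else
              ∑ i, ∑ j, ff (∑ c, X a i c * X b j c))
            + (∑ a : Fin s, ∑ i, ∑ j, ff (∑ c, X a i c * g j c))
            + (∑ b : Fin s, ∑ i, ∑ j, ff (∑ c, g i c * X b j c)) := by
        rw [Fin.sum_univ_castSucc]
        simp only [Fin.sum_univ_castSucc, Fin.snoc_castSucc, Fin.snoc_last, Fin.castSucc_inj,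
          (Fin.castSucc_lt_last _).ne, (Fin.castSucc_lt_last _).ne', if_true, if_false, add_zero,
          sum_add_distrib]
      rw [htot, hsym]
      have h5 : ((s + 1 : ℕ) : ℝ) * (((s + 1 : ℕ) : ℝ) - 1) * (M : ℝ) ^ 2 * A
          = (s : ℝ) * ((s : ℝ) - 1) * (M : ℝ) ^ 2 * A + (s : ℝ) * (M : ℝ) ^ 2 * A
            + (s : ℝ) * (M : ℝ) ^ 2 * A := by
        push_cast
        ring
      rw [h5]
      gcongr

end Pool.Agent.XPM
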