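import Pool.Agent.XPM.St

/-!
# XPM, module HA: the Hartley matrix
-/

set_option autoImplicit false

namespace Pool.Agent.XPM

open Finset

private theorem HA_exp (m : ℕ) (hm : 0 < m) (z : ℤ) :
    ∑ k : Fin m, Complex.exp (((2 * Real.pi * z * (k : ℕ) / m : ℝ) : ℂ) * Complex.I) =
      if (m : ℤ) ∣ z then (m : ℂ) else 0 := by
  have hm0 : (m : ℂ) ≠ 0 := by exact_mod_cast hm.ne'
  have hp := Complex.isPrimitiveRoot_exp m hm.ne'
  have e1 : ∀ k : Fin m, Complex.exp (((2 * Real.pi * z * (k : ℕ) / m : ℝ) : ℂ) * Complex.I) =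
      ((Complex.exp (2 * Real.pi * Complex.I / m)) ^ z) ^ (k : ℕ) := by
    intro k
    rw [← Complex.exp_int_mul, ← Complex.exp_nat_mul]
    congr 1
    push_cast
    ring
  rw [Finset.sum_congr rfl fun k _ => e1 k,
    Fin.sum_univ_eq_sum_range (fun k => ((Complex.exp (2 * Real.pi * Complex.I / m)) ^ z) ^ k) m]
  by_cases hz : (m : ℤ) ∣ z
  · rw [if_pos hz, (hp.zpow_eq_one_iff_dvd z).2 hz]
    simp
  · rw [if_neg hz, geom_sum_eq fun h => hz ((hp.zpow_eq_one_iff_dvd z).1 h)]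
    have e2 : ((Complex.exp (2 * Real.pi * Complex.I / m)) ^ z) ^ m = 1 := by
      rw [← zpow_natCast, ← zpow_mul, mul_comm z, zpow_mul, zpow_natCast, hp.pow_eq_one, one_zpow]
    rw [e2, sub_self, zero_div]

private theorem HA_cos (m : ℕ) (hm : 0 < m) (z : ℤ) :
    ∑ k : Fin m, Real.cos (2 * Real.pi * z * (k : ℕ) / m) =
      if (m : ℤ) ∣ z then (m : ℝ) else 0 := by
  have h := congrArg Complex.re (HA_exp m hm z)
  rw [Complex.re_sum] at h
  simp only [Complex.exp_ofReal_mul_I_re] at h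
  rw [h]
  split_ifs <;> simp

private theorem HA_sin (m : ℕ) (hm : 0 < m) (z : ℤ) :
    ∑ k : Fin m, Real.sin (2 * Real.pi * z * (k : ℕ) / m) = 0 := by
  have h := congrArg Complex.im (HA_exp m hm z)
  rw [Complex.im_sum] at h
  simp only [Complex.exp_ofReal_mul_I_im] at h
  rw [h]
  split_ifs <;> simp

theorem thm_HA : St_HA := by
  intro m hm
  have hm0 : (0 : ℝ) < m := by exact_mod_cast hm
  have hs : √(m : ℝ) ^ 2 = m := Real.sq_sqrt hm0.le
  have hs0 : √(m : ℝ) ≠ 0 := (Real.sqrt_pos.2 hm0).ne'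
  refine ⟨fun j k => (Real.cos (2 * Real.pi * (j : ℕ) * (k : ℕ) / m) +
    Real.sin (2 * Real.pi * (j : ℕ) * (k : ℕ) / m)) / √m, ?_, ?_⟩
  · intro j l
    have e1 : ∀ k : Fin m, (Real.cos (2 * Real.pi * (j : ℕ) * (k : ℕ) / m) +
        Real.sin (2 * Real.pi * (j : ℕ) * (k : ℕ) / m)) / √m *
        ((Real.cos (2 * Real.pi * (l : ℕ) * (k : ℕ) / m) +
        Real.sin (2 * Real.pi * (l : ℕ) * (k : ℕ) / m)) / √m) =
        (Real.cos (2 * Real.pi * (((j : ℕ) : ℤ) - ((l : ℕ) : ℤ) : ℤ) * (k : ℕ) / m) +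
          Real.sin (2 * Real.pi * (((j : ℕ) : ℤ) + ((l : ℕ) : ℤ) : ℤ) * (k : ℕ) / m)) / m := by
      intro k
      have a1 : 2 * Real.pi * (((((j : ℕ) : ℤ) - ((l : ℕ) : ℤ) : ℤ)) : ℝ) * (k : ℕ) / m =
          2 * Real.pi * (j : ℕ) * (k : ℕ) / m - 2 * Real.pi * (l : ℕ) * (k : ℕ) / m := by
        push_cast
        ring
      have a2 : 2 * Real.pi * (((((j : ℕ) : ℤ) + ((l : ℕ) : ℤ) : ℤ)) : ℝ) * (k : ℕ) / m =
          2 * Real.pi * (j : ℕ) * (k : ℕ) / m + 2 * Real.pi * (l : ℕ) * (k : ℕ) / m := by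
        push_cast
        ring
      rw [a1, a2, Real.cos_sub, Real.sin_add, div_mul_div_comm, ← sq, hs]
      ring
    rw [Finset.sum_congr rfl fun k _ => e1 k, ← Finset.sum_div, Finset.sum_add_distrib,
      HA_cos m hm, HA_sin m hm, add_zero]
    by_cases hjl : j = l
    · subst hjl
      rw [if_pos rfl, sub_self, if_pos (dvd_zero _), div_self hm0.ne']
    · rw [if_neg hjl, if_neg, zero_div]
      intro hd
      apply hjl
      apply Fin.ext
      have h1 := Int.eq_zero_of_abs_lt_dvd hd (by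
        have := j.2
        have := l.2
        rw [abs_lt]
        constructor <;> omega)
      omega
  · intro j k
    rw [div_pow, hs]
    apply div_le_div_of_nonneg_right _ hm0.le
    nlinarith [Real.sin_sq_add_cos_sq (2 * Real.pi * (j : ℕ) * (k : ℕ) / m),
      sq_nonneg (Real.cos (2 * Real.pi * (j : ℕ) * (k : ℕ) / m) -
        Real.sin (2 * Real.pi * (j : ℕ) * (k : ℕ) / m))]

end Pool.Agent.XPM
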