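import Pool.Agent.XPM.St

/-!
# XPM, module HF: harmonic frame of a symmetric set
-/

set_option autoImplicit false

namespace Pool.Agent.XPM

open Finset

private noncomputable def HF_c {p : ℕ} [Fact p.Prime] (h x : Fin 4 → ZMod p) : ℂ :=
  ZMod.stdAddChar (∑ i, h i * x i)

private theorem HF_add {p : ℕ} [Fact p.Prime] (h x y : Fin 4 → ZMod p) :
    HF_c h (x + y) = HF_c h x * HF_c h y := by
  unfold HF_c
  rw [← AddChar.map_add_eq_mul]
  congr 1
  rw [← Finset.sum_add_distrib]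
  exact Finset.sum_congr rfl fun i _ => by rw [Pi.add_apply]; ring

private theorem HF_neg {p : ℕ} [Fact p.Prime] (h x : Fin 4 → ZMod p) :
    HF_c (-h) x = (starRingEnd ℂ) (HF_c h x) := by
  unfold HF_c
  rw [← AddChar.map_neg_eq_conj]
  congr 1
  rw [← Finset.sum_neg_distrib]
  exact Finset.sum_congr rfl fun i _ => by rw [Pi.neg_apply]; ring

private theorem HF_neg' {p : ℕ} [Fact p.Prime] (h x : Fin 4 → ZMod p) :
    HF_c h (-x) = (starRingEnd ℂ) (HF_c h x) := by
  rw [← HF_neg]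
  unfold HF_c
  congr 1
  exact Finset.sum_congr rfl fun i _ => by rw [Pi.neg_apply, Pi.neg_apply]; ring

private theorem HF_sym {p : ℕ} [Fact p.Prime] (H : Finset (Fin 4 → ZMod p))
    (hH : ∀ h ∈ H, -h ∈ H) (f : (Fin 4 → ZMod p) → ℝ) :
    ∑ h ∈ H, f (-h) = ∑ h ∈ H, f h :=
  Finset.sum_nbij' (fun h => -h) (fun h => -h) hH hH (fun h _ => neg_neg h) (fun h _ => neg_neg h)
    (fun _ _ => rfl)

private theorem HF_im {p : ℕ} [Fact p.Prime] (H : Finset (Fin 4 → ZMod p))
    (hH : ∀ h ∈ H, -h ∈ H) (z : Fin 4 → ZMod p) : ∑ h ∈ H, (HF_c h z).im = 0 := by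
  have h1 := HF_sym H hH (fun h => (HF_c h z).im)
  have h2 : ∑ h ∈ H, (HF_c (-h) z).im = -∑ h ∈ H, (HF_c h z).im := by
    rw [← Finset.sum_neg_distrib]
    exact Finset.sum_congr rfl fun h _ => by rw [HF_neg, Complex.conj_im]
  rw [h2] at h1
  linarith

theorem thm_HF : St_HF := by
  intro p _ H hH hne
  obtain ⟨e⟩ : Nonempty (Fin H.card ≃ H) := ⟨(Finset.equivFin H).symm⟩
  have hcard : (0 : ℝ) < H.card := by exact_mod_cast hne.card_pos
  obtain ⟨b, hb⟩ : ∃ b : (Fin 4 → ZMod p) → EuclideanSpace ℝ (Fin H.card), ∀ x j, b x j =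
      ((HF_c (e j).1 x).re + (HF_c (e j).1 x).im) / √(H.card : ℝ) :=
    ⟨fun x => WithLp.toLp 2 fun j => ((HF_c (e j).1 x).re + (HF_c (e j).1 x).im) / √(H.card : ℝ),
      fun x j => rfl⟩
  have key : ∀ x y, (H.card : ℝ) * (inner ℝ (b x) (b y) : ℝ) =
      ∑ h ∈ H, (HF_c h (x - y)).re := by
    intro x y
    have h1 : (inner ℝ (b x) (b y) : ℝ) = ∑ j, (b x j) * (b y j) := by
      rw [PiLp.inner_apply]
      refine Finset.sum_congr rfl fun j _ => ?_
      rw [RCLike.inner_apply, conj_trivial, mul_comm]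
    have h2 : ∀ j, (H.card : ℝ) * ((b x j) * (b y j)) =
        ((HF_c (e j).1 x).re + (HF_c (e j).1 x).im) * ((HF_c (e j).1 y).re + (HF_c (e j).1 y).im) := by
      intro j
      rw [hb, hb, div_mul_div_comm, Real.mul_self_sqrt hcard.le]
      field_simp
    rw [h1, Finset.mul_sum, Finset.sum_congr rfl fun j _ => h2 j]
    have h3 : ∑ j, ((HF_c (e j).1 x).re + (HF_c (e j).1 x).im) *
        ((HF_c (e j).1 y).re + (HF_c (e j).1 y).im) =
        ∑ h ∈ H, ((HF_c h x).re + (HF_c h x).im) * ((HF_c h y).re + (HF_c h y).im) := by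
      rw [← Finset.sum_coe_sort H (fun h => ((HF_c h x).re + (HF_c h x).im) *
        ((HF_c h y).re + (HF_c h y).im))]
      exact Equiv.sum_comp e (fun h : H => ((HF_c h.1 x).re + (HF_c h.1 x).im) *
        ((HF_c h.1 y).re + (HF_c h.1 y).im))
    rw [h3]
    have h4 := HF_im H hH (x + y)
    rw [← add_zero (∑ h ∈ H, (HF_c h (x - y)).re), ← h4, ← Finset.sum_add_distrib]
    refine Finset.sum_congr rfl fun h _ => ?_
    rw [sub_eq_add_neg, HF_add, HF_add, HF_neg', Complex.mul_re, Complex.mul_im, Complex.conj_re,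
      Complex.conj_im]
    ring
  refine ⟨b, fun x => ?_, fun x y => ?_⟩
  · have h1 := key x x
    have h2 : ∑ h ∈ H, (HF_c h (x - x)).re = H.card := by
      have h3 : ∀ h : Fin 4 → ZMod p, HF_c h (x - x) = 1 := by
        intro h
        unfold HF_c
        rw [sub_self]
        simp
      rw [Finset.sum_congr rfl fun h _ => by rw [h3 h]]
      simp
    rw [h2, real_inner_self_eq_norm_sq] at h1
    have h4 : ‖b x‖ ^ 2 = 1 := by
      have := mul_left_cancel₀ hcard.ne' (h1.trans (mul_one _).symm)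
      exact this
    nlinarith [norm_nonneg (b x), sq_nonneg (‖b x‖ - 1)]
  · rw [key]
    have h1 := HF_im H hH (x - y)
    have h2 : ∑ h ∈ H, ZMod.stdAddChar (∑ i, h i * (x i - y i)) = ∑ h ∈ H, HF_c h (x - y) := rfl
    rw [h2]
    apply Complex.ext
    · rw [Complex.ofReal_re, Complex.re_sum]
    · rw [Complex.ofReal_im, Complex.im_sum, h1]

end Pool.Agent.XPM
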