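import Pool.Agent.XPM.St

/-!
# XPM, module HM (helper52): moments of the frame by character orthogonality
-/

set_option autoImplicit false

namespace Pool.Agent.XPM

open Finset

section

variable {p : ℕ} [Fact p.Prime]

/-- the linear form with coefficients `w` -/
private def HM_lin (w : Fin 4 → ZMod p) : (Fin 4 → ZMod p) →+ ZMod p where
  toFun z := ∑ i, w i * z i
  map_zero' := by simp
  map_add' x y := by
    simp only [Pi.add_apply, mul_add, Finset.sum_add_distrib]

/-- the character with frequency `w` -/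
private noncomputable def HM_ch (w : Fin 4 → ZMod p) : AddChar (Fin 4 → ZMod p) ℂ :=
  (ZMod.stdAddChar (N := p)).compAddMonoidHom (HM_lin w)

private theorem HM_ch_apply (w z : Fin 4 → ZMod p) :
    HM_ch w z = ZMod.stdAddChar (∑ i, w i * z i) := rfl

private theorem HM_ch_add (a b z : Fin 4 → ZMod p) :
    HM_ch (a + b) z = HM_ch a z * HM_ch b z := by
  rw [HM_ch_apply, HM_ch_apply, HM_ch_apply, ← AddChar.map_add_eq_mul]
  congr 1
  simp only [Pi.add_apply, add_mul, Finset.sum_add_distrib]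

private theorem HM_card : (Fintype.card (Fin 4 → ZMod p) : ℂ) = (p : ℂ) ^ 4 := by
  rw [Fintype.card_fun, ZMod.card, Fintype.card_fin]
  push_cast
  ring

private theorem HM_orth (w : Fin 4 → ZMod p) :
    ∑ z, HM_ch w z = if w = 0 then (p : ℂ) ^ 4 else 0 := by
  classical
  by_cases hw : w = 0
  · rw [if_pos hw, hw]
    have : ∀ z, HM_ch (0 : Fin 4 → ZMod p) z = 1 := by
      intro z
      rw [HM_ch_apply]
      simp
    rw [Finset.sum_congr rfl fun z _ => this z, Finset.sum_const, Finset.card_univ, nsmul_eq_mul,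
      mul_one, HM_card]
  · rw [if_neg hw]
    refine AddChar.sum_eq_zero_of_ne_one ?_
    intro h1
    apply hw
    funext i
    by_contra hi
    have hprim := ZMod.isPrimitive_stdAddChar p hi
    apply hprim
    ext t
    have h2 := DFunLike.congr_fun h1 (Pi.single i t)
    rw [HM_ch_apply] at h2
    have h3 : ∑ j, w j * (Pi.single i t : Fin 4 → ZMod p) j = w i * t := by
      rw [Finset.sum_eq_single i]
      · rw [Pi.single_eq_same]
      · intro j _ hj
        rw [Pi.single_eq_of_ne hj, mul_zero]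
      · intro h
        exact absurd (Finset.mem_univ i) h
    rw [h3] at h2
    rw [AddChar.mulShift_apply]
    simpa using h2

/-- the sum over the frequencies -/
private noncomputable def HM_S (H : Finset (Fin 4 → ZMod p)) (z : Fin 4 → ZMod p) : ℂ :=
  ∑ h ∈ H, HM_ch h z

/-- number of representations -/
private def HM_r (H : Finset (Fin 4 → ZMod p)) (w : Fin 4 → ZMod p) : ℕ :=
  (H.filter (fun a => w - a ∈ H)).card

private theorem HM_one (H : Finset (Fin 4 → ZMod p)) (h0 : (0 : Fin 4 → ZMod p) ∉ H) :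
    ∑ z, HM_S H z = 0 := by
  unfold HM_S
  rw [Finset.sum_comm]
  refine Finset.sum_eq_zero fun h hh => ?_
  rw [HM_orth, if_neg]
  intro h1
  exact h0 (h1 ▸ hh)

private theorem HM_sq (H : Finset (Fin 4 → ZMod p)) (z : Fin 4 → ZMod p) :
    HM_S H z ^ 2 = ∑ a ∈ H, ∑ b ∈ H, HM_ch (a + b) z := by
  unfold HM_S
  rw [sq, Finset.sum_mul_sum]
  simp only [HM_ch_add]

private theorem HM_two (H : Finset (Fin 4 → ZMod p)) (hs : ∀ h ∈ H, -h ∈ H) :
    ∑ z, HM_S H z ^ 2 = (p : ℂ) ^ 4 * H.card := by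
  classical
  simp only [HM_sq]
  rw [Finset.sum_comm]
  have h1 : ∀ a ∈ H, ∑ z, ∑ b ∈ H, HM_ch (a + b) z = (p : ℂ) ^ 4 := by
    intro a ha
    rw [Finset.sum_comm]
    simp only [HM_orth]
    rw [Finset.sum_eq_single (-a)]
    · rw [if_pos (add_neg_cancel a)]
    · intro b _ hb
      rw [if_neg]
      intro h
      exact hb (eq_neg_of_add_eq_zero_right h)
    · intro h
      exact absurd (hs a ha) h
  rw [Finset.sum_congr rfl h1, Finset.sum_const, nsmul_eq_mul, mul_comm]

private theorem HM_three (H : Finset (Fin 4 → ZMod p)) (hs : ∀ h ∈ H, -h ∈ H) :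
    ∑ z, HM_S H z ^ 3 =
      (p : ℂ) ^ 4 * ((H ×ˢ H).filter (fun z => z.1 + z.2 ∈ H)).card := by
  classical
  have h0 : ∀ z, HM_S H z ^ 3 = ∑ q ∈ H ×ˢ H, ∑ c ∈ H, HM_ch (q.1 + q.2 + c) z := by
    intro z
    rw [pow_succ, HM_sq, ← Finset.sum_product', Finset.sum_mul]
    refine Finset.sum_congr rfl fun q _ => ?_
    unfold HM_S
    rw [Finset.mul_sum]
    refine Finset.sum_congr rfl fun c _ => ?_
    rw [HM_ch_add (q.1 + q.2) c]
  simp only [h0]
  rw [Finset.sum_comm]
  have h1 : ∀ q ∈ H ×ˢ H, ∑ z, ∑ c ∈ H, HM_ch (q.1 + q.2 + c) z =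
      if q.1 + q.2 ∈ H then (p : ℂ) ^ 4 else 0 := by
    intro q _
    rw [Finset.sum_comm]
    simp only [HM_orth]
    by_cases hq : q.1 + q.2 ∈ H
    · rw [if_pos hq, Finset.sum_eq_single (-(q.1 + q.2))]
      · rw [if_pos (add_neg_cancel _)]
      · intro b _ hb
        rw [if_neg]
        intro h
        exact hb (eq_neg_of_add_eq_zero_right h)
      · intro h
        exact absurd (hs _ hq) h
    · rw [if_neg hq]
      refine Finset.sum_eq_zero fun c hc => ?_
      rw [if_neg]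
      intro h
      apply hq
      have h2 : q.1 + q.2 = -c := eq_neg_of_add_eq_zero_left h
      rw [h2]
      exact hs c hc
  rw [Finset.sum_congr rfl h1, ← Finset.sum_filter, Finset.sum_const, nsmul_eq_mul, mul_comm]

private theorem HM_rep (H : Finset (Fin 4 → ZMod p)) (z : Fin 4 → ZMod p) :
    HM_S H z ^ 2 = ∑ w, (HM_r H w : ℂ) * HM_ch w z := by
  classical
  rw [HM_sq]
  have h1 : ∀ a ∈ H, ∑ b ∈ H, HM_ch (a + b) z = ∑ w, if w - a ∈ H then HM_ch w z else 0 := by
    intro a _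
    rw [← Finset.sum_filter]
    refine Finset.sum_bij (fun b _ => a + b) ?_ ?_ ?_ ?_
    · intro b hb
      rw [Finset.mem_filter]
      refine ⟨Finset.mem_univ _, ?_⟩
      rw [add_sub_cancel_left]
      exact hb
    · intro b _ b' _ h
      exact add_left_cancel h
    · intro w hw
      rw [Finset.mem_filter] at hw
      exact ⟨w - a, hw.2, by abel⟩
    · intro b _
      rfl
  rw [Finset.sum_congr rfl h1, Finset.sum_comm]
  refine Finset.sum_congr rfl fun w _ => ?_
  rw [← Finset.sum_filter, Finset.sum_const, nsmul_eq_mul]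
  rfl

private theorem HM_r_neg (H : Finset (Fin 4 → ZMod p)) (hs : ∀ h ∈ H, -h ∈ H)
    (w : Fin 4 → ZMod p) : HM_r H (-w) = HM_r H w := by
  classical
  unfold HM_r
  refine Finset.card_bij (fun a _ => -a) ?_ ?_ ?_
  · intro a ha
    rw [Finset.mem_filter] at ha ⊢
    refine ⟨hs a ha.1, ?_⟩
    have h := hs _ ha.2
    have h2 : w - -a = -(-w - a) := by abel
    rw [h2]
    exact h
  · intro a _ a' _ h
    exact neg_injective h
  · intro b hb
    rw [Finset.mem_filter] at hb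
    refine ⟨-b, ?_, neg_neg b⟩
    rw [Finset.mem_filter]
    refine ⟨hs b hb.1, ?_⟩
    have h := hs _ hb.2
    have h2 : -w - -b = -(w - b) := by abel
    rw [h2]
    exact h

private theorem HM_four (H : Finset (Fin 4 → ZMod p)) (hs : ∀ h ∈ H, -h ∈ H) :
    ∑ z, HM_S H z ^ 4 = (p : ℂ) ^ 4 * ∑ w, (HM_r H w : ℂ) ^ 2 := by
  classical
  have h0 : ∀ z, HM_S H z ^ 4 =
      ∑ w, ∑ w', (HM_r H w : ℂ) * (HM_r H w' : ℂ) * HM_ch (w + w') z := by
    intro z
    have h : HM_S H z ^ 4 = HM_S H z ^ 2 * HM_S H z ^ 2 := by ring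
    rw [h, HM_rep, Finset.sum_mul_sum]
    refine Finset.sum_congr rfl fun w _ => Finset.sum_congr rfl fun w' _ => ?_
    rw [HM_ch_add]
    ring
  simp only [h0]
  rw [Finset.sum_comm, Finset.mul_sum]
  refine Finset.sum_congr rfl fun w _ => ?_
  rw [Finset.sum_comm]
  have h1 : ∀ w', ∑ z, (HM_r H w : ℂ) * (HM_r H w' : ℂ) * HM_ch (w + w') z =
      if w' = -w then (HM_r H w : ℂ) * (HM_r H w' : ℂ) * (p : ℂ) ^ 4 else 0 := by
    intro w'
    rw [← Finset.mul_sum, HM_orth]
    by_cases h : w' = -w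
    · rw [if_pos h, if_pos]
      rw [h, add_neg_cancel]
    · rw [if_neg h, if_neg, mul_zero]
      intro h2
      exact h (eq_neg_of_add_eq_zero_right h2)
  simp only [h1]
  rw [Finset.sum_ite_eq' Finset.univ (-w), if_pos (Finset.mem_univ _), HM_r_neg H hs]
  ring

private theorem HM_trans (F : (Fin 4 → ZMod p) → ℂ) :
    ∑ x, ∑ y, F (x - y) = (p : ℂ) ^ 4 * ∑ z, F z := by
  have h1 : ∀ x : Fin 4 → ZMod p, ∑ y, F (x - y) = ∑ z, F z := fun x =>
    Equiv.sum_comp (Equiv.subLeft x) F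
  rw [Finset.sum_congr rfl fun x _ => h1 x, Finset.sum_const, Finset.card_univ, nsmul_eq_mul,
    HM_card]

/-- all the moments -/
private theorem HM_mom (H : Finset (Fin 4 → ZMod p)) (hne : H.Nonempty)
    (g : (Fin 4 → ZMod p) → (Fin 4 → ZMod p) → ℝ)
    (hg : ∀ x y, (((H.card : ℝ) * g x y : ℝ) : ℂ) =
      ∑ h ∈ H, ZMod.stdAddChar (∑ i, h i * (x i - y i))) (e : ℕ) (c : ℝ)
    (hc : ∑ z, HM_S H z ^ e = (p : ℂ) ^ 4 * (c : ℂ)) :
    ∑ x, ∑ y, g x y ^ e = (p : ℝ) ^ 8 * c / (H.card : ℝ) ^ e := by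
  have hcard : (0 : ℝ) < H.card := by exact_mod_cast hne.card_pos
  have hg2 : ∀ x y, ((H.card : ℝ) * g x y : ℝ) = HM_S H (x - y) := by
    intro x y
    rw [hg x y]
    rfl
  have h1 : ((∑ x, ∑ y, ((H.card : ℝ) * g x y) ^ e : ℝ) : ℂ) = (((p : ℝ) ^ 8 * c : ℝ) : ℂ) := by
    rw [Complex.ofReal_sum]
    have h2 : ∀ x, ((∑ y, ((H.card : ℝ) * g x y) ^ e : ℝ) : ℂ) = ∑ y, HM_S H (x - y) ^ e := by
      intro x
      rw [Complex.ofReal_sum]
      refine Finset.sum_congr rfl fun y _ => ?_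
      rw [Complex.ofReal_pow, hg2]
    rw [Finset.sum_congr rfl fun x _ => h2 x, HM_trans (fun z => HM_S H z ^ e), hc]
    push_cast
    ring
  have h3 : ∑ x, ∑ y, ((H.card : ℝ) * g x y) ^ e = (p : ℝ) ^ 8 * c := by
    exact_mod_cast h1
  rw [eq_div_iff (ne_of_gt (pow_pos hcard e)), ← h3, Finset.sum_mul]
  refine Finset.sum_congr rfl fun x _ => ?_
  rw [Finset.sum_mul]
  refine Finset.sum_congr rfl fun y _ => ?_
  rw [mul_pow]
  ring

end

/-- **Module HM** -/
theorem thm_HM : St_HM := by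
  intro p _ H hs h0 hne g hg
  have hcard : (0 : ℝ) < H.card := by exact_mod_cast hne.card_pos
  refine ⟨?_, ?_, ?_, ?_⟩
  · have h := HM_mom H hne g hg 1 0 (by
      simp only [pow_one]
      rw [HM_one H h0]
      simp)
    simpa using h
  · have h := HM_mom H hne g hg 2 H.card (by
      rw [HM_two H hs]
      push_cast
      ring)
    rw [h, div_eq_div_iff (ne_of_gt (pow_pos hcard 2)) (ne_of_gt hcard)]
    ring
  · have h3 := HM_three H hs
    rw [← Complex.ofReal_natCast] at h3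
    rw [HM_mom H hne g hg 3 _ h3]
  · have h4 : ∑ z, HM_S H z ^ 4 = (p : ℂ) ^ 4 *
        ((∑ w : Fin 4 → ZMod p, (HM_r H w : ℝ) ^ 2 : ℝ) : ℂ) := by
      rw [HM_four H hs]
      push_cast
      ring
    rw [HM_mom H hne g hg 4 _ h4]
    rfl

end Pool.Agent.XPM
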