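import Pool.Agent.XPM.St

/-!
# The cone over the paraboloid: cardinality and additive triples
-/

set_option autoImplicit false

namespace Pool.Agent.XPM

open Finset

private lemma K1_mem {p : ℕ} [Fact p.Prime] {δ : ZMod p} {h : Fin 4 → ZMod p} :
    h ∈ capH p δ ↔ h 0 ≠ 0 ∧ h 0 * h 3 = h 1 ^ 2 - δ * h 2 ^ 2 := by
  simp [capH]

theorem thm_K1 : St_K1 := by
  intro p hp δ
  have h1 : (capH p δ).card
      = ((univ.erase (0 : ZMod p)) ×ˢ ((univ : Finset (ZMod p)) ×ˢ (univ : Finset (ZMod p)))).card := by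
    refine Finset.card_nbij' (fun h => (h 0, h 1, h 2))
      (fun z => ![z.1, z.2.1, z.2.2, (z.2.1 ^ 2 - δ * z.2.2 ^ 2) / z.1]) ?_ ?_ ?_ ?_
    · intro h hh
      have h2 := K1_mem.1 (Finset.mem_coe.1 hh)
      simp [h2.1]
    · intro z hz
      have h2 : z.1 ≠ 0 := by simpa using hz
      refine Finset.mem_coe.2 (K1_mem.2 ⟨by simpa using h2, ?_⟩)
      show z.1 * ((z.2.1 ^ 2 - δ * z.2.2 ^ 2) / z.1) = z.2.1 ^ 2 - δ * z.2.2 ^ 2
      field_simp
    · intro h hh
      have h2 := K1_mem.1 (Finset.mem_coe.1 hh)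
      ext i
      fin_cases i
      · rfl
      · rfl
      · rfl
      · show (h 1 ^ 2 - δ * h 2 ^ 2) / h 0 = h 3
        rw [← h2.2, mul_div_cancel_left₀ _ h2.1]
    · intro z hz
      rfl
  rw [h1, Finset.card_product, Finset.card_product, Finset.card_erase_of_mem (Finset.mem_univ _),
    Finset.card_univ, ZMod.card]
  ring

private lemma K1_prop {p : ℕ} [Fact p.Prime] {δ : ZMod p} (hδ : ¬ IsSquare δ)
    {a b : Fin 4 → ZMod p} (ha : a ∈ capH p δ) (hb : b ∈ capH p δ) (hab : a + b ∈ capH p δ) :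
    b = (b 0 / a 0) • a := by
  obtain ⟨ha0, ha1⟩ := K1_mem.1 ha
  obtain ⟨hb0, hb1⟩ := K1_mem.1 hb
  obtain ⟨_, hab1⟩ := K1_mem.1 hab
  simp only [Pi.add_apply] at hab1
  have h1 : a 0 * b 3 + b 0 * a 3 - 2 * a 1 * b 1 + 2 * δ * a 2 * b 2 = 0 := by
    linear_combination hab1 - ha1 - hb1
  have h2 : (a 0 * b 1 - b 0 * a 1) ^ 2 - δ * (a 0 * b 2 - b 0 * a 2) ^ 2 = 0 := by
    linear_combination a 0 * b 0 * h1 - a 0 ^ 2 * hb1 - b 0 ^ 2 * ha1
  have h3 : a 0 * b 2 - b 0 * a 2 = 0 := by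
    by_contra hne
    apply hδ
    refine ⟨(a 0 * b 1 - b 0 * a 1) / (a 0 * b 2 - b 0 * a 2), ?_⟩
    field_simp
    linear_combination -h2
  have h4 : a 0 * b 1 - b 0 * a 1 = 0 := by
    rw [h3] at h2
    have : (a 0 * b 1 - b 0 * a 1) ^ 2 = 0 := by linear_combination h2
    exact pow_eq_zero_iff (two_ne_zero) |>.1 this
  have e1 : b 1 = b 0 / a 0 * a 1 := by
    field_simp
    linear_combination h4
  have e2 : b 2 = b 0 / a 0 * a 2 := by
    field_simp
    linear_combination h3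
  have e3 : b 3 = b 0 / a 0 * a 3 := by
    have h5 : b 0 * (a 0 * b 3 - b 0 * a 3) = 0 := by
      have h6 : a 0 * (b 0 * (a 0 * b 3 - b 0 * a 3)) = 0 := by
        linear_combination a 0 ^ 2 * hb1 - b 0 ^ 2 * ha1 + (a 0 * b 1 + b 0 * a 1) * h4
          - δ * (a 0 * b 2 + b 0 * a 2) * h3
      exact (mul_eq_zero.1 h6).resolve_left ha0
    have h7 := (mul_eq_zero.1 h5).resolve_left hb0
    field_simp
    linear_combination h7
  ext i
  fin_cases i
  · show b 0 = b 0 / a 0 * a 0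
    field_simp
  · exact e1
  · exact e2
  · exact e3

theorem thm_K2 : St_K2 := by
  intro p hp δ hδ
  have h1 : (capH p δ).card * p = ((capH p δ) ×ˢ (univ : Finset (ZMod p))).card := by
    rw [Finset.card_product, Finset.card_univ, ZMod.card]
  rw [h1]
  refine Finset.card_le_card_of_injOn (fun z => (z.1, z.2 0)) ?_ ?_
  · intro z hz
    have h2 := Finset.mem_filter.1 (Finset.mem_coe.1 hz)
    have h3 := Finset.mem_product.1 h2.1
    exact Finset.mem_coe.2 (Finset.mem_product.2 ⟨h3.1, Finset.mem_univ _⟩)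
  · intro z hz w hw hzw
    have h2 := Finset.mem_filter.1 (Finset.mem_coe.1 hz)
    have h3 := Finset.mem_product.1 h2.1
    have h4 := Finset.mem_filter.1 (Finset.mem_coe.1 hw)
    have h5 := Finset.mem_product.1 h4.1
    have e1 : z.1 = w.1 := (Prod.mk.inj hzw).1
    have e2 : z.2 0 = w.2 0 := (Prod.mk.inj hzw).2
    have e3 := K1_prop hδ h3.1 h3.2 h2.2
    have e4 := K1_prop hδ h5.1 h5.2 h4.2
    have e5 : z.2 = w.2 := by rw [e3, e4, e1, e2]
    exact Prod.ext e1 e5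

end Pool.Agent.XPM
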