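import Pool.Agent.XPM.St

/-!
# Module K3 : representations `w = a + b` in the cone
-/

set_option autoImplicit false

namespace Pool.Agent.XPM

open Finset

private theorem K3_ns {p : ℕ} [Fact p.Prime] {δ : ZMod p} (hδ : ¬ IsSquare δ) (x y : ZMod p)
    (h : x ^ 2 = δ * y ^ 2) : x = 0 ∧ y = 0 := by
  have hy : y = 0 := by
    by_contra hy
    apply hδ
    refine ⟨x / y, ?_⟩
    field_simp
    rw [h]
  refine ⟨?_, hy⟩
  rw [hy] at h
  have h1 : x ^ 2 = 0 := by
    rw [h]
    ring
  exact pow_eq_zero_iff (two_ne_zero) |>.1 h1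

private theorem K3_mem {p : ℕ} [Fact p.Prime] {δ : ZMod p} {w a : Fin 4 → ZMod p}
    (ha : a ∈ (capH p δ).filter (fun a => w - a ∈ capH p δ)) :
    a 0 ≠ 0 ∧ a 0 * a 3 = a 1 ^ 2 - δ * a 2 ^ 2 ∧
      w 0 * a 3 + w 3 * a 0 - 2 * w 1 * a 1 + 2 * δ * w 2 * a 2 =
        w 0 * w 3 - w 1 ^ 2 + δ * w 2 ^ 2 := by
  rw [mem_filter] at ha
  obtain ⟨h1, h2⟩ := ha
  unfold capH at h1 h2
  rw [mem_filter] at h1 h2
  refine ⟨h1.2.1, h1.2.2, ?_⟩
  have h3 := h1.2.2
  have h4 := h2.2.2
  simp only [Pi.sub_apply] at h4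
  linear_combination h3 - h4

/-- Representations `w = a + b` in the cone. -/
theorem thm_K3 : St_K3 := by
  intro p _ δ hδ w hw
  by_cases hQ : w 0 * w 3 - w 1 ^ 2 + δ * w 2 ^ 2 = 0
  · have h1 : ((capH p δ).filter (fun a => w - a ∈ capH p δ)).card ≤
        (univ : Finset (ZMod p)).card := by
      refine card_le_card_of_injOn (fun a => a 0) (fun a _ => mem_univ _) ?_
      intro a ha b hb hab
      have hab' : a 0 = b 0 := hab
      obtain ⟨ha1, ha2, ha3⟩ := K3_mem ha
      obtain ⟨hb1, hb2, hb3⟩ := K3_mem hb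
      rw [hQ] at ha3 hb3
      by_cases hw0 : w 0 = 0
      · exfalso
        rw [hw0] at hQ
        obtain ⟨h2, h3⟩ := K3_ns hδ (w 1) (w 2) (by linear_combination -hQ)
        rw [hw0, h2, h3] at ha3
        have h4 : w 3 * a 0 = 0 := by linear_combination ha3
        have h5 : w 3 = 0 := (mul_eq_zero.1 h4).resolve_right ha1
        apply hw
        funext i
        fin_cases i
        · exact hw0
        · exact h2
        · exact h3
        · exact h5
      · obtain ⟨h2, h3⟩ := K3_ns hδ (w 0 * a 1 - w 1 * a 0) (w 0 * a 2 - w 2 * a 0) (by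
          linear_combination w 0 * a 0 * ha3 - a 0 ^ 2 * hQ - w 0 ^ 2 * ha2)
        obtain ⟨h4, h5⟩ := K3_ns hδ (w 0 * b 1 - w 1 * b 0) (w 0 * b 2 - w 2 * b 0) (by
          linear_combination w 0 * b 0 * hb3 - b 0 ^ 2 * hQ - w 0 ^ 2 * hb2)
        have h6 : a 1 = b 1 := by
          apply mul_left_cancel₀ hw0
          rw [← hab'] at h4
          linear_combination h2 - h4
        have h7 : a 2 = b 2 := by
          apply mul_left_cancel₀ hw0
          rw [← hab'] at h5
          linear_combination h3 - h5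
        have h8 : a 3 = b 3 := by
          apply mul_left_cancel₀ ha1
          rw [ha2, hab', hb2, h6, h7]
        funext i
        fin_cases i
        · exact hab'
        · exact h6
        · exact h7
        · exact h8
    rw [card_univ, ZMod.card] at h1
    exact h1.trans (Nat.le_add_left _ _)
  · have h1 : ((capH p δ).filter (fun a => w - a ∈ capH p δ)).card ≤
        (univ : Finset (ZMod p × ZMod p)).card := by
      refine card_le_card_of_injOn (fun a => (a 1 / a 0, a 2 / a 0)) (fun a _ => mem_univ _) ?_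
      intro a ha b hb hab
      have hab1 : a 1 / a 0 = b 1 / b 0 := congrArg Prod.fst hab
      have hab2 : a 2 / a 0 = b 2 / b 0 := congrArg Prod.snd hab
      obtain ⟨ha1, ha2, ha3⟩ := K3_mem ha
      obtain ⟨hb1, hb2, hb3⟩ := K3_mem hb
      rw [div_eq_div_iff ha1 hb1] at hab1 hab2
      have hab3 : a 3 * b 0 = b 3 * a 0 := by
        apply mul_left_cancel₀ (mul_ne_zero ha1 hb1)
        have e1 : a 0 * b 0 * (a 3 * b 0) = (a 0 * a 3) * b 0 ^ 2 := by ring
        have e2 : a 0 * b 0 * (b 3 * a 0) = (b 0 * b 3) * a 0 ^ 2 := by ring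
        rw [e1, e2, ha2, hb2]
        linear_combination (a 1 * b 0 + b 1 * a 0) * hab1 - δ * (a 2 * b 0 + b 2 * a 0) * hab2
      have h2 : (w 0 * w 3 - w 1 ^ 2 + δ * w 2 ^ 2) * b 0 =
          (w 0 * w 3 - w 1 ^ 2 + δ * w 2 ^ 2) * a 0 := by
        linear_combination -b 0 * ha3 + a 0 * hb3 + w 0 * hab3 - 2 * w 1 * hab1
          + 2 * δ * w 2 * hab2
      have h3 : b 0 = a 0 := mul_left_cancel₀ hQ h2
      rw [h3] at hab1 hab2 hab3
      funext i
      fin_cases i
      · exact h3.symm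
      · exact mul_right_cancel₀ ha1 hab1
      · exact mul_right_cancel₀ ha1 hab2
      · exact mul_right_cancel₀ ha1 hab3
    rw [card_univ, Fintype.card_prod, ZMod.card] at h1
    refine h1.trans ?_
    rw [← pow_two]
    exact Nat.le_add_right _ _

end Pool.Agent.XPM
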