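import Pool.Agent.XPM.St

/-!
# XPM.N1: the numerical bound for a fixed prime (MP_b22a07_co)
-/

set_option autoImplicit false

namespace Pool.Agent.XPM

open Finset

/-- the lower bound for the sum after removing points -/
private theorem N1_rem (N N' M A B S' : ℝ) (hN : 2 ≤ N) (hNN : N ≤ N') (hM : 1 ≤ M)
    (hN' : N' ≤ N + M) (hA : A ≤ 1) (hB : 0 ≤ B) (hS : N' ^ 2 * A - B * N' ≤ S') :
    N ^ 2 * A - M - B * N ≤ N * (N - 1) / (N' * (N' - 1)) * S' := by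
  have h1 : 0 < N' - 1 := by linarith
  have h2 : 0 < N' := by linarith
  have hc : 0 ≤ N * (N - 1) / (N' * (N' - 1)) := by
    have : 0 ≤ N - 1 := by linarith
    positivity
  refine le_trans ?_ (mul_le_mul_of_nonneg_left hS hc)
  set ρ : ℝ := N * (N - 1) / (N' - 1) with hρ
  have hρN : ρ ≤ N := by
    rw [hρ, div_le_iff₀ h1]
    nlinarith
  have hρM : N - M ≤ ρ := by
    rw [hρ, le_div_iff₀ h1]
    rcases le_total N M with h | h
    · have : (N - M) * (N' - 1) ≤ 0 := mul_nonpos_of_nonpos_of_nonneg (by linarith) h1.le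
      nlinarith
    · nlinarith [mul_le_mul_of_nonneg_left (show N' - 1 ≤ N + M - 1 by linarith)
        (show 0 ≤ N - M by linarith)]
  have he : N * (N - 1) / (N' * (N' - 1)) * (N' ^ 2 * A - B * N') =
      N * (N - 1) * A + ρ * A - ρ * B := by
    rw [hρ]
    field_simp
    ring
  rw [he]
  rcases le_total 0 A with h | h
  · nlinarith [mul_le_mul_of_nonneg_right hρM h, mul_le_mul_of_nonneg_right hρN hB,
      mul_le_mul_of_nonneg_left hA (show (0 : ℝ) ≤ M by linarith)]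
  · nlinarith [mul_le_mul_of_nonneg_right hρN hB, mul_nonneg_of_nonpos_of_nonpos
      (show ρ - N ≤ 0 by linarith) h]

/-- the comparison of the main terms -/
private theorem N1_main (N D D' q : ℝ) (hq : 0 < q) (hD : 2 * q ≤ D) (h1 : D' ≤ D)
    (h2 : D - D' ≤ q) :
    N ^ 2 - N ^ 2 / (8 * D) - 33 / 4 * q * N ^ 2 / D ^ 2 ≤
      N ^ 2 * (1 - 1 / (8 * D') - 2 * q / D' ^ 2) := by
  have hD0 : 0 < D := by linarith
  have hD' : D / 2 ≤ D' := by linarith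
  have hD'0 : 0 < D' := by linarith
  have hN2 : 0 ≤ N ^ 2 := sq_nonneg N
  have e1 : N ^ 2 * (1 / (8 * D')) - N ^ 2 / (8 * D) ≤ 1 / 4 * q * N ^ 2 / D ^ 2 := by
    have h3 : 1 / (8 * D') - 1 / (8 * D) ≤ 1 / 4 * q / D ^ 2 := by
      rw [div_sub_div _ _ (by positivity) (by positivity), div_le_div_iff₀ (by positivity)
        (by positivity)]
      have h5 : 0 ≤ D - D' := by linarith
      nlinarith [mul_nonneg hD0.le (mul_nonneg hD0.le (sub_nonneg.2 h2)),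
        mul_nonneg (mul_nonneg hq.le hD0.le) (sub_nonneg.2 hD')]
    have h4 := mul_le_mul_of_nonneg_left h3 hN2
    have h5 : N ^ 2 * (1 / (8 * D') - 1 / (8 * D)) = N ^ 2 * (1 / (8 * D')) - N ^ 2 / (8 * D) := by
      ring
    have h6 : N ^ 2 * (1 / 4 * q / D ^ 2) = 1 / 4 * q * N ^ 2 / D ^ 2 := by ring
    linarith
  have e2 : N ^ 2 * (2 * q / D' ^ 2) ≤ 8 * q * N ^ 2 / D ^ 2 := by
    have h3 : 2 * q / D' ^ 2 ≤ 8 * q / D ^ 2 := by
      rw [div_le_div_iff₀ (by positivity) (by positivity)]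
      have h4 : (D / 2) ^ 2 ≤ D' ^ 2 := pow_le_pow_left₀ (by positivity) hD' 2
      nlinarith
    have h4 := mul_le_mul_of_nonneg_left h3 hN2
    have h6 : N ^ 2 * (8 * q / D ^ 2) = 8 * q * N ^ 2 / D ^ 2 := by ring
    linarith
  have e3 : 33 / 4 * q * N ^ 2 / D ^ 2 = 1 / 4 * q * N ^ 2 / D ^ 2 + 8 * q * N ^ 2 / D ^ 2 := by
    ring
  rw [e3, mul_sub, mul_sub, mul_one]
  linarith

theorem thm_N1 (hCT : St_CT) (hRM : St_RM) (hEM : St_EM) : St_N1 := by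
  intro p d N hp hp3 hd hN
  set n0 : ℕ := p ^ 2 * (p - 1) with hn0
  have hp1 : 1 ≤ p := by omega
  have hn0pos : 0 < n0 := by
    rw [hn0]
    have : 0 < p - 1 := by omega
    positivity
  set m : ℕ := d / n0 with hm
  have hm1 : 1 ≤ m := (Nat.one_le_div_iff hn0pos).2 (by omega)
  have hdm : m * n0 ≤ d := Nat.div_mul_le_self d n0
  have hdm2 : d < m * n0 + n0 := by
    have := Nat.lt_div_mul_add (a := d) hn0pos
    rw [hm]
    exact this
  set M : ℕ := m * p ^ 4 with hM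
  have hM1 : 1 ≤ M := by
    rw [hM]
    have : 0 < p ^ 4 := by positivity
    exact Nat.mul_pos hm1 this
  set s : ℕ := (N + M - 1) / M with hs
  have hs1 : 1 ≤ s := (Nat.one_le_div_iff hM1).2 (by omega)
  have hsM : s * M ≤ N + M - 1 := Nat.div_mul_le_self _ _
  have hsM2 : N ≤ s * M := by
    have h1 := Nat.lt_div_mul_add (a := N + M - 1) hM1
    rw [← hs] at h1
    omega
  obtain ⟨X, hX1, hX2⟩ := hCT p m s hp hp3 hm1 hs1
  obtain ⟨Y, hY⟩ := hEM d (m * (p ^ 2 * (p - 1))) (s * (m * p ^ 4)) X hdm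
  have hY1 : ∀ i, ‖Y i‖ = 1 := by
    intro i
    have h1 : (inner ℝ (Y i) (Y i) : ℝ) = inner ℝ (X i) (X i) := hY i i
    rw [real_inner_self_eq_norm_sq, real_inner_self_eq_norm_sq, hX1 i] at h1
    have h2 := norm_nonneg (Y i)
    nlinarith
  obtain ⟨Z, hZ1, hZ2⟩ := hRM d N (s * (m * p ^ 4)) Y hN hsM2 hY1
  refine ⟨Z, hZ1, le_trans ?_ hZ2⟩
  have hsum : ∑ i, ∑ j, ff (inner ℝ (Y i) (Y j)) = ∑ i, ∑ j, ff (inner ℝ (X i) (X j)) :=
    Finset.sum_congr rfl fun i _ => Finset.sum_congr rfl fun j _ => by rw [hY i j]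
  rw [hsum]
  set S' : ℝ := ∑ i, ∑ j, ff (inner ℝ (X i) (X j)) with hS'
  -- casts
  have hpR : (3 : ℝ) ≤ p := by exact_mod_cast hp3
  have hcastn0 : ((n0 : ℕ) : ℝ) = (p : ℝ) ^ 2 * ((p : ℝ) - 1) := by
    rw [hn0]
    push_cast [Nat.cast_sub hp1]
    ring
  set q : ℝ := (p : ℝ) ^ 2 * ((p : ℝ) - 1) with hq
  have hq0 : 0 < q := by
    rw [hq]
    have : 0 < (p : ℝ) - 1 := by linarith
    positivity
  have hD2 : 2 * q ≤ d := by
    rw [← hcastn0]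
    exact_mod_cast hd
  have hD1 : (m : ℝ) * q ≤ d := by
    rw [← hcastn0]
    exact_mod_cast hdm
  have hD3 : (d : ℝ) - m * q ≤ q := by
    have h1 : (d : ℝ) ≤ (m * n0 + n0 : ℕ) := by exact_mod_cast hdm2.le
    push_cast at h1
    rw [hcastn0] at h1
    linarith
  have hNR : (2 : ℝ) ≤ N := by exact_mod_cast hN
  have hMR : (1 : ℝ) ≤ (m : ℝ) * (p : ℝ) ^ 4 := by
    have : ((1 : ℕ) : ℝ) ≤ ((m * p ^ 4 : ℕ) : ℝ) := by exact_mod_cast hM1
    push_cast at this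
    exact this
  have hN'1 : (N : ℝ) ≤ (s : ℝ) * ((m : ℝ) * (p : ℝ) ^ 4) := by
    have : ((N : ℕ) : ℝ) ≤ ((s * (m * p ^ 4) : ℕ) : ℝ) := by exact_mod_cast hsM2
    push_cast at this
    exact this
  have hN'2 : (s : ℝ) * ((m : ℝ) * (p : ℝ) ^ 4) ≤ N + (m : ℝ) * (p : ℝ) ^ 4 := by
    have h0 : s * (m * p ^ 4) ≤ N + m * p ^ 4 := le_trans hsM (Nat.sub_le _ _)
    have : ((s * (m * p ^ 4) : ℕ) : ℝ) ≤ ((N + m * p ^ 4 : ℕ) : ℝ) := by exact_mod_cast h0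
    push_cast at this
    exact this
  have hmR : (1 : ℝ) ≤ m := by exact_mod_cast hm1
  have hmq : 0 < (m : ℝ) * q := by positivity
  set A : ℝ := 1 - 1 / (8 * ((m : ℝ) * q)) - 2 * q / ((m : ℝ) * q) ^ 2 with hA
  set B : ℝ := 5 / 16 + p / ((p : ℝ) - 1) ^ 2 with hB
  have hA1 : A ≤ 1 := by
    rw [hA]
    have h1 : 0 ≤ 1 / (8 * ((m : ℝ) * q)) := by positivity
    have h2 : 0 ≤ 2 * q / ((m : ℝ) * q) ^ 2 := by positivity
    linarith
  have hB0 : 0 ≤ B := by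
    rw [hB]
    positivity
  have hX3 : ((s : ℝ) * ((m : ℝ) * (p : ℝ) ^ 4)) ^ 2 * A -
      B * ((s : ℝ) * ((m : ℝ) * (p : ℝ) ^ 4)) ≤ S' := by
    refine le_trans (le_of_eq ?_) hX2
    rw [hA, hB]
  have hfin := N1_rem N ((s : ℝ) * ((m : ℝ) * (p : ℝ) ^ 4)) ((m : ℝ) * (p : ℝ) ^ 4) A B S'
    hNR hN'1 hMR hN'2 hA1 hB0 hX3
  have hmain := N1_main N d ((m : ℝ) * q) q hq0 hD2 hD1 hD3
  have hMle : (m : ℝ) * (p : ℝ) ^ 4 ≤ 2 * p * d := by
    have h1 : (m : ℝ) * (p : ℝ) ^ 4 ≤ 2 * p * (m * q) := by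
      rw [hq]
      have h2 : 0 ≤ (m : ℝ) * (p : ℝ) ^ 3 := by positivity
      nlinarith [mul_nonneg h2 (show (0 : ℝ) ≤ (p : ℝ) - 2 by linarith)]
    have h3 : 2 * (p : ℝ) * (m * q) ≤ 2 * p * d :=
      mul_le_mul_of_nonneg_left hD1 (by positivity)
    linarith
  have hqp : 33 / 4 * q * (N : ℝ) ^ 2 / (d : ℝ) ^ 2 ≤ 9 * (p : ℝ) ^ 3 * (N : ℝ) ^ 2 / (d : ℝ) ^ 2 := by
    have h1 : 33 / 4 * q ≤ 9 * (p : ℝ) ^ 3 := by
      rw [hq]
      have : 0 < (p : ℝ) ^ 2 := by positivity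
      nlinarith
    gcongr
  have hcast : (((s * (m * p ^ 4) : ℕ)) : ℝ) = (s : ℝ) * ((m : ℝ) * (p : ℝ) ^ 4) := by
    push_cast
    ring
  rw [hcast]
  rw [hB] at hfin
  linarith

end Pool.Agent.XPM
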