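import Pool.Agent.XPM.St

set_option autoImplicit false

/-!
XPM, module N2: choice of the prime and the quantitative lower bound.
-/

namespace Pool.Agent.XPM

open Finset

private lemma N2_real (D M a b P : ℝ) (hD : 0 < D) (hM : 0 < M) (ha : 0 < a) (hb : 0 < b)
    (ha2 : a ^ 2 * M = D) (hb4 : b ^ 4 * D ^ 2 = M) (hP3 : 3 ≤ P) (hPa : P * a ≤ 1)
    (hPb : P * b ≤ 1) (hy : 1 ≤ 2 * P * (a + b)) :
    P / (P - 1) ^ 2 * M + 2 * P * D + 9 * P ^ 3 * M ^ 2 / D ^ 2 ≤ 7999 * M * (a + b) := by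
  have h1 : P / (P - 1) ^ 2 ≤ 9 / 2 * (a + b) := by
    have h0 : 0 < (P - 1) ^ 2 := by
      have : 0 < P - 1 := by linarith
      positivity
    rw [div_le_iff₀ h0]
    have h2 : 4 * P ^ 2 ≤ 9 * (P - 1) ^ 2 := by nlinarith
    have h3 : P * 1 ≤ P * (2 * P * (a + b)) := mul_le_mul_of_nonneg_left hy (by linarith)
    have h4 : (a + b) * (4 * P ^ 2) ≤ (a + b) * (9 * (P - 1) ^ 2) :=
      mul_le_mul_of_nonneg_left h2 (by linarith)
    nlinarith
  have h2 : 2 * P * D ≤ 2 * a * M := by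
    have h3 : (P * a) * (a * M) ≤ 1 * (a * M) :=
      mul_le_mul_of_nonneg_right hPa (by positivity)
    have h4 : 2 * P * D = 2 * ((P * a) * (a * M)) := by
      rw [← ha2]
      ring
    rw [h4]
    linarith
  have h3 : 9 * P ^ 3 * M ^ 2 / D ^ 2 ≤ 9 * b * M := by
    have h4 : 9 * P ^ 3 * M ^ 2 / D ^ 2 = 9 * ((P * b) ^ 3 * (b * M)) := by
      rw [div_eq_iff (by positivity)]
      have h5 : M ^ 2 = b ^ 4 * D ^ 2 * M := by
        rw [hb4]
        ring
      rw [h5]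
      ring
    rw [h4]
    have h6 : (P * b) ^ 3 ≤ 1 := pow_le_one₀ (by positivity) hPb
    have h7 : (P * b) ^ 3 * (b * M) ≤ 1 * (b * M) :=
      mul_le_mul_of_nonneg_right h6 (by positivity)
    linarith
  have h4 : P / (P - 1) ^ 2 * M ≤ 9 / 2 * (a + b) * M := mul_le_mul_of_nonneg_right h1 hM.le
  have h5 : 0 < a * M := by positivity
  have h6 : 0 < b * M := by positivity
  nlinarith

private lemma N2_three (D M a b : ℝ) (hD : 0 < D) (hM : 0 < M) (hDM : D ≤ M) (hMD : M ≤ D ^ 2)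
    (hy : 1 / 6 ≤ a + b) :
    3 / (3 - 1) ^ 2 * M + 2 * 3 * D + 9 * 3 ^ 3 * M ^ 2 / D ^ 2 ≤ 7999 * M * (a + b) := by
  have h1 : 9 * 3 ^ 3 * M ^ 2 / D ^ 2 ≤ 243 * M := by
    rw [div_le_iff₀ (by positivity)]
    nlinarith
  have h2 : M * (1 / 6) ≤ M * (a + b) := mul_le_mul_of_nonneg_left hy hM.le
  nlinarith

private lemma N2_key (h1 : St_N1) (d N : ℕ) (hd : 2 ≤ d) (hdN : d ≤ N) (hNd : N ≤ d ^ 2)
    (a b : ℝ) (ha : 0 < a) (hb : 0 < b) (ha2 : a ^ 2 * N = d)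
    (hb4 : b ^ 4 * (d : ℝ) ^ 2 = N) :
    ∃ X : Fin N → EuclideanSpace ℝ (Fin d), (∀ i, ‖X i‖ = 1) ∧
      (N : ℝ) ^ 2 - (N : ℝ) ^ 2 / (8 * d) - 5 / 16 * N - 7999 * N * (a + b)
        ≤ ∑ i, ∑ j, ff (inner ℝ (X i) (X j)) := by
  have hD : (2 : ℝ) ≤ d := by exact_mod_cast hd
  have hDM : (d : ℝ) ≤ N := by exact_mod_cast hdN
  have hMD : (N : ℝ) ≤ (d : ℝ) ^ 2 := by exact_mod_cast hNd
  have hD0 : (0 : ℝ) < d := by linarith
  have hM0 : (0 : ℝ) < N := by linarith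
  by_cases hs : d < 36
  · have : NeZero d := ⟨by omega⟩
    refine ⟨fun _ => EuclideanSpace.single 0 1, fun i => by simp, ?_⟩
    have h2 : 0 ≤ ∑ i : Fin N, ∑ j : Fin N, ff (inner ℝ
        ((fun _ => EuclideanSpace.single 0 1 : Fin N → EuclideanSpace ℝ (Fin d)) i)
        ((fun _ => EuclideanSpace.single 0 1 : Fin N → EuclideanSpace ℝ (Fin d)) j)) :=
      Finset.sum_nonneg fun i _ => Finset.sum_nonneg fun j _ => Real.sqrt_nonneg _
    refine le_trans ?_ h2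
    have hs' : (d : ℝ) ≤ 36 := by exact_mod_cast hs.le
    have h3 : (1 : ℝ) / 6 ≤ a := by
      by_contra hc
      push Not at hc
      have h4 : a ^ 2 < (1 / 6) ^ 2 := by nlinarith
      have h5 : (N : ℝ) ≤ d * 36 := by nlinarith
      nlinarith
    have h4 : (N : ℝ) ≤ 1296 := by nlinarith
    have h5 : 0 ≤ (N : ℝ) ^ 2 / (8 * d) := by positivity
    have h6 : (N : ℝ) * (1 / 6) ≤ N * (a + b) := mul_le_mul_of_nonneg_left (by linarith) hM0.le
    nlinarith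
  · by_cases hm : (1 : ℝ) / 6 ≤ max a b
    · obtain ⟨X, hX, hS⟩ := h1 3 d N Nat.prime_three le_rfl (by omega) (by omega)
      refine ⟨X, hX, le_trans ?_ hS⟩
      have h2 : (1 : ℝ) / 6 ≤ a + b := by
        rcases le_max_iff.1 hm with h | h <;> linarith
      have h3 := N2_three d N a b hD0 hM0 hDM hMD h2
      push_cast
      linarith
    · push Not at hm
      have hμ : 0 < max a b := lt_max_of_lt_left ha
      have h2 : (3 : ℝ) < 1 / (2 * max a b) := by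
        rw [lt_div_iff₀ (by positivity)]
        linarith
      have hn3 : 3 ≤ ⌊1 / (2 * max a b)⌋₊ := Nat.le_floor (by exact_mod_cast h2.le)
      obtain ⟨p, hp, hnp, hp2⟩ := Nat.exists_prime_lt_and_le_two_mul
        ⌊1 / (2 * max a b)⌋₊ (by omega)
      have hfl : ((⌊1 / (2 * max a b)⌋₊ : ℕ) : ℝ) ≤ 1 / (2 * max a b) :=
        Nat.floor_le (by positivity)
      have hfu : 1 / (2 * max a b) < (⌊1 / (2 * max a b)⌋₊ : ℕ) + 1 := Nat.lt_floor_add_one _
      have hp3 : 3 ≤ p := by omega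
      have hpr : (p : ℝ) ≤ 2 * (⌊1 / (2 * max a b)⌋₊ : ℕ) := by exact_mod_cast hp2
      have hpl : ((⌊1 / (2 * max a b)⌋₊ : ℕ) : ℝ) + 1 ≤ p := by exact_mod_cast hnp
      have hp0 : (0 : ℝ) < p := by exact_mod_cast hp.pos
      have hpm : (p : ℝ) * max a b ≤ 1 := by
        have h3 : (p : ℝ) ≤ 2 * (1 / (2 * max a b)) := by linarith
        have h4 : 2 * (1 / (2 * max a b)) = 1 / max a b := by
          field_simp
        rw [h4, le_div_iff₀ hμ] at h3
        exact h3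
      have hpa : (p : ℝ) * a ≤ 1 := le_trans (mul_le_mul_of_nonneg_left (le_max_left _ _) hp0.le) hpm
      have hpb : (p : ℝ) * b ≤ 1 := le_trans (mul_le_mul_of_nonneg_left (le_max_right _ _) hp0.le) hpm
      have hy : 1 ≤ 2 * (p : ℝ) * (a + b) := by
        have h3 : 1 / (2 * max a b) < p := by linarith
        rw [div_lt_iff₀ (by positivity)] at h3
        have h4 : max a b ≤ a + b := max_le (by linarith) (by linarith)
        have h5 : (p : ℝ) * (2 * max a b) ≤ p * (2 * (a + b)) :=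
          mul_le_mul_of_nonneg_left (by linarith) hp0.le
        nlinarith
      have hp4 : (p : ℝ) ^ 4 ≤ d := by
        have h3 : ((p : ℝ) * b) ^ 4 ≤ 1 := pow_le_one₀ (by positivity) hpb
        have h4 : (p : ℝ) ^ 4 * N ≤ (d : ℝ) ^ 2 := by
          have h5 : (p : ℝ) ^ 4 * N = ((p : ℝ) * b) ^ 4 * (d : ℝ) ^ 2 := by
            rw [← hb4]
            ring
          rw [h5]
          have h6 : ((p : ℝ) * b) ^ 4 * (d : ℝ) ^ 2 ≤ 1 * (d : ℝ) ^ 2 :=
            mul_le_mul_of_nonneg_right h3 (by positivity)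
          linarith
        have h5 : (p : ℝ) ^ 4 * d ≤ (d : ℝ) * d := by
          have h6 : (p : ℝ) ^ 4 * d ≤ (p : ℝ) ^ 4 * N :=
            mul_le_mul_of_nonneg_left hDM (by positivity)
          nlinarith
        exact le_of_mul_le_mul_right h5 hD0
      have hp4' : p ^ 4 ≤ d := by exact_mod_cast hp4
      have hcard : 2 * (p ^ 2 * (p - 1)) ≤ d := by
        refine le_trans ?_ hp4'
        have h3 : p - 1 ≤ p := Nat.sub_le _ _
        calc 2 * (p ^ 2 * (p - 1)) ≤ p * (p ^ 2 * p) :=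
              Nat.mul_le_mul (by omega) (Nat.mul_le_mul_left _ h3)
          _ = p ^ 4 := by ring
      obtain ⟨X, hX, hS⟩ := h1 p d N hp hp3 hcard (by omega)
      refine ⟨X, hX, le_trans ?_ hS⟩
      have h3 := N2_real d N a b p hD0 hM0 ha hb ha2 hb4 (by exact_mod_cast hp3) hpa hpb hy
      linarith

theorem thm_N2 (h1 : St_N1) (h2 : St_PE) : St_N2 := by
  refine ⟨8000, by norm_num, ?_⟩
  intro d N hd hdN hNd
  have hD : (0 : ℝ) < d := by exact_mod_cast (by omega : 0 < d)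
  have hN : (0 : ℝ) < N := by exact_mod_cast (by omega : 0 < N)
  have ha : 0 < √((d : ℝ) / N) := Real.sqrt_pos.2 (by positivity)
  have hb : 0 < √(√((N : ℝ) / (d : ℝ) ^ 2)) := Real.sqrt_pos.2 (Real.sqrt_pos.2 (by positivity))
  have ha2 : √((d : ℝ) / N) ^ 2 * N = d := by
    rw [Real.sq_sqrt (by positivity)]
    field_simp
  have hb4 : √(√((N : ℝ) / (d : ℝ) ^ 2)) ^ 4 * (d : ℝ) ^ 2 = N := by
    have h3 : √(√((N : ℝ) / (d : ℝ) ^ 2)) ^ 4 = (N : ℝ) / (d : ℝ) ^ 2 := by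
      rw [show (4 : ℕ) = 2 * 2 by norm_num, pow_mul, Real.sq_sqrt (Real.sqrt_nonneg _),
        Real.sq_sqrt (by positivity)]
    rw [h3]
    field_simp
  obtain ⟨X, hX, hS⟩ := N2_key h1 d N hd hdN hNd _ _ ha hb ha2 hb4
  obtain ⟨Y, hYi, hY, hYS⟩ := h2 d N X
    (N * (√((d : ℝ) / N) + √(√((N : ℝ) / (d : ℝ) ^ 2)))) hd (by positivity) hX
  refine ⟨Y, hYi, hY, le_trans ?_ hYS⟩
  linarith

end Pool.Agent.XPM
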