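import Pool.Agent.XPM.St

/-!
# XPM, module PE: making the points distinct
-/

set_option autoImplicit false

namespace Pool.Agent.XPM

/-- the unit sphere has no isolated points in dimension at least two -/
private theorem PE_dense (d : ℕ) (hd : 2 ≤ d)
    (A : Set (Metric.sphere (0 : EuclideanSpace ℝ (Fin d)) 1)) (hA : A.Finite) :
    Dense Aᶜ := by
  have hr : 1 < Module.rank ℝ (EuclideanSpace ℝ (Fin d)) := by
    rw [← Module.finrank_eq_rank, finrank_euclideanSpace_fin]
    exact_mod_cast hd
  have hc : IsConnected (Metric.sphere (0 : EuclideanSpace ℝ (Fin d)) 1) :=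
    isConnected_sphere hr 0 zero_le_one
  have : ConnectedSpace (Metric.sphere (0 : EuclideanSpace ℝ (Fin d)) 1) :=
    isConnected_iff_connectedSpace.mp hc
  have hn : Nontrivial (Metric.sphere (0 : EuclideanSpace ℝ (Fin d)) 1) := by
    obtain ⟨v, hv⟩ := hc.nonempty
    have hv1 : ‖v‖ = 1 := by simpa using hv
    refine ⟨⟨v, hv⟩, ⟨-v, by simpa using hv⟩, fun h => ?_⟩
    have h1 : v = -v := congrArg Subtype.val h
    have h3 : (2 : ℝ) • v = 0 := by
      rw [two_smul]
      nth_rewrite 2 [h1]
      exact add_neg_cancel v
    have h2 : v = 0 := (smul_eq_zero.mp h3).resolve_left two_ne_zero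
    rw [h2, norm_zero] at hv1
    exact zero_ne_one hv1
  have h := Dense.sdiff_finite (dense_univ (X := Metric.sphere (0 : EuclideanSpace ℝ (Fin d)) 1)) hA
  rwa [← Set.compl_eq_univ_sdiff] at h

theorem thm_PE : St_PE := by
  classical
  intro d N X η hd hη hX
  let S := Metric.sphere (0 : EuclideanSpace ℝ (Fin d)) 1
  let F : (Fin N → S) → ℝ := fun Y => ∑ i, ∑ j, ff (inner ℝ (Y i : EuclideanSpace ℝ (Fin d)) (Y j))
  have hff : Continuous ff := by
    unfold ff
    fun_prop
  have hF : Continuous F := by
    refine continuous_finsetSum _ fun i _ => continuous_finsetSum _ fun j _ => hff.comp ?_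
    exact Continuous.inner (continuous_subtype_val.comp (continuous_apply i))
      (continuous_subtype_val.comp (continuous_apply j))
  let X' : Fin N → S := fun i => ⟨X i, by simpa [S] using hX i⟩
  let U : Set (Fin N → S) := {Y | F X' - η < F Y}
  have hU : IsOpen U := isOpen_lt continuous_const hF
  have hmain : ∀ t : Finset (Fin N), ∃ Y ∈ U, Set.InjOn Y t := by
    intro t
    induction t using Finset.induction_on with
    | empty => exact ⟨X', by show F X' - η < F X'; linarith, by simp⟩
    | insert a t ha ih =>
      obtain ⟨Y, hY, hi⟩ := ih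
      have hg : Continuous fun w : S => Function.update Y a w :=
        continuous_const.update a continuous_id
      have hO : IsOpen ((fun w : S => Function.update Y a w) ⁻¹' U) := hU.preimage hg
      have hne : ((fun w : S => Function.update Y a w) ⁻¹' U).Nonempty :=
        ⟨Y a, by rw [Set.mem_preimage, Function.update_eq_self]; exact hY⟩
      obtain ⟨w, hwU, hwA⟩ := (PE_dense d hd (Y '' t) (t.finite_toSet.image Y)).inter_open_nonempty
        _ hO hne
      refine ⟨Function.update Y a w, hwU, ?_⟩
      have hne' : ∀ y ∈ t, y ≠ a := fun y hy h => ha (h ▸ hy)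
      intro x hx y hy hxy
      rw [Finset.coe_insert, Set.mem_insert_iff] at hx hy
      rcases hx with rfl | hx
      · rcases hy with rfl | hy
        · rfl
        · rw [Function.update_self, Function.update_of_ne (hne' y hy)] at hxy
          exact absurd ⟨y, hy, hxy.symm⟩ hwA
      · rcases hy with rfl | hy
        · rw [Function.update_self, Function.update_of_ne (hne' x hx)] at hxy
          exact absurd ⟨x, hx, hxy⟩ hwA
        · rw [Function.update_of_ne (hne' y hy), Function.update_of_ne (hne' x hx)] at hxy
          exact hi hx hy hxy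
  obtain ⟨Y, hY, hi⟩ := hmain Finset.univ
  refine ⟨fun i => (Y i : EuclideanSpace ℝ (Fin d)), fun x y hxy => ?_, fun i => ?_, ?_⟩
  · exact hi (Finset.mem_coe.mpr (Finset.mem_univ x)) (Finset.mem_coe.mpr (Finset.mem_univ y))
      (Subtype.ext hxy)
  · simp
  · exact le_of_lt hY

end Pool.Agent.XPM
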