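import Pool.Agent.XPM.St

set_option autoImplicit false

/-!
XPM RM: removing points.
-/

namespace Pool.Agent.XPM

open Finset

private theorem RM_step (d n : ℕ) (X : Fin (n + 1) → EuclideanSpace ℝ (Fin d))
    (hX : ∀ i, ‖X i‖ = 1) : ∃ Y : Fin n → EuclideanSpace ℝ (Fin d), (∀ i, ‖Y i‖ = 1) ∧
      ((n : ℝ) - 1) / (n + 1) * ∑ i, ∑ j, ff (inner ℝ (X i) (X j))
        ≤ ∑ i, ∑ j, ff (inner ℝ (Y i) (Y j)) := by
  have hsym : ∀ i j, ff (inner ℝ (X i) (X j)) = ff (inner ℝ (X j) (X i)) := by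
    intro i j
    rw [real_inner_comm]
  have hdiag : ∀ i, ff (inner ℝ (X i) (X i)) = 0 := by
    intro i
    rw [real_inner_self_eq_norm_sq, hX i, ff]
    norm_num
  obtain ⟨i0, _, h0⟩ := Finset.exists_le_of_sum_le (s := (univ : Finset (Fin (n + 1))))
    (f := fun i => ((n : ℝ) + 1) * ∑ j, ff (inner ℝ (X i) (X j)))
    (g := fun _ => ∑ i, ∑ j, ff (inner ℝ (X i) (X j))) univ_nonempty (by
      rw [← Finset.mul_sum, Finset.sum_const, Finset.card_univ, Fintype.card_fin, nsmul_eq_mul]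
      push_cast
      exact le_refl _)
  refine ⟨fun i => X (i0.succAbove i), fun i => hX _, ?_⟩
  have hR : ∑ j, ff (inner ℝ (X i0) (X j)) = ∑ j : Fin n, ff (inner ℝ (X (i0.succAbove j)) (X i0)) := by
    rw [Fin.sum_univ_succAbove _ i0, hdiag, zero_add]
    exact Finset.sum_congr rfl fun j _ => hsym _ _
  have hS : ∑ i, ∑ j, ff (inner ℝ (X i) (X j)) = 2 * ∑ j, ff (inner ℝ (X i0) (X j)) +
      ∑ i : Fin n, ∑ j : Fin n, ff (inner ℝ (X (i0.succAbove i)) (X (i0.succAbove j))) := by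
    rw [Fin.sum_univ_succAbove _ i0]
    have h1 : ∑ i : Fin n, ∑ j, ff (inner ℝ (X (i0.succAbove i)) (X j)) =
        ∑ j : Fin n, ff (inner ℝ (X (i0.succAbove j)) (X i0)) +
        ∑ i : Fin n, ∑ j : Fin n, ff (inner ℝ (X (i0.succAbove i)) (X (i0.succAbove j))) := by
      rw [← Finset.sum_add_distrib]
      exact Finset.sum_congr rfl fun i _ => Fin.sum_univ_succAbove _ i0
    rw [h1, ← hR]
    ring
  have hn : (0 : ℝ) < (n : ℝ) + 1 := by positivity
  rw [div_mul_eq_mul_div, div_le_iff₀ hn]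
  nlinarith [h0, hS]

theorem thm_RM : St_RM := by
  intro d N N' X hN hNN
  induction N', hNN using Nat.le_induction with
  | base =>
    intro hX
    refine ⟨X, hX, ?_⟩
    have h2 : (2 : ℝ) ≤ N := by exact_mod_cast hN
    rw [div_self (by nlinarith), one_mul]
  | succ M hM ih =>
    intro hX
    obtain ⟨X', hX', h'⟩ := RM_step d M X hX
    obtain ⟨Y, hY, h⟩ := ih X' hX'
    refine ⟨Y, hY, le_trans ?_ h⟩
    have h2 : (2 : ℝ) ≤ N := by exact_mod_cast hN
    have h3 : (N : ℝ) ≤ M := by exact_mod_cast hM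
    have hc : (0 : ℝ) ≤ (N : ℝ) * (N - 1) / (M * (M - 1)) := by
      apply div_nonneg <;> nlinarith
    refine le_trans (le_of_eq ?_) (mul_le_mul_of_nonneg_left h' hc)
    have hM1 : (M : ℝ) - 1 ≠ 0 := by
      have : (0 : ℝ) < (M : ℝ) - 1 := by linarith
      exact this.ne'
    have hM0 : (M : ℝ) ≠ 0 := by
      have : (0 : ℝ) < (M : ℝ) := by linarith
      exact this.ne'
    have hM2 : (M : ℝ) + 1 ≠ 0 := by
      have : (0 : ℝ) < (M : ℝ) + 1 := by linarith
      exact this.ne'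
    push_cast
    have e : (M : ℝ) + 1 - 1 = M := by ring
    rw [e]
    field_simp

end Pool.Agent.XPM
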