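import Pool.Agent.XPM.St

set_option autoImplicit false

namespace Pool.Agent.XPM

open Finset

private theorem SG_split (d : ℕ) (a : Fin (d + 1) → ℝ) (k : ℕ) :
    ∑ ε : Fin (d + 1) → Bool, (∑ i, sg (ε i) * a i) ^ k =
      ∑ ε : Fin d → Bool, (((∑ i, sg (ε i) * a i.succ) + a 0) ^ k +
        ((∑ i, sg (ε i) * a i.succ) - a 0) ^ k) := by
  rw [← (Fin.consEquiv (fun _ : Fin (d + 1) => Bool)).sum_comp, Fintype.sum_prod_type,
    Fintype.sum_bool, ← Finset.sum_add_distrib]
  apply Finset.sum_congr rfl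
  intro ε _
  have h : ∀ b : Bool, ∑ i, sg ((Fin.consEquiv (fun _ : Fin (d + 1) => Bool)) (b, ε) i) * a i =
      sg b * a 0 + ∑ i, sg (ε i) * a i.succ := by
    intro b
    rw [Fin.sum_univ_succ]
    rfl
  rw [h, h]
  have h1 : sg true = 1 := rfl
  have h2 : sg false = -1 := rfl
  rw [h1, h2]
  ring

theorem thm_SG : St_SG := by
  intro d
  induction d with
  | zero =>
    intro a
    simp
  | succ d ih =>
    intro a
    obtain ⟨i1, i2, i3, i4⟩ := ih (fun i => a i.succ)
    have e1 := SG_split d a 1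
    have e2 := SG_split d a 2
    have e3 := SG_split d a 3
    have e4 := SG_split d a 4
    simp only [pow_one] at e1
    refine ⟨?_, ?_, ?_, ?_⟩
    · rw [e1]
      have : ∀ ε : Fin d → Bool, (((∑ i, sg (ε i) * a i.succ) + a 0) +
        ((∑ i, sg (ε i) * a i.succ) - a 0)) = 2 * ∑ i, sg (ε i) * a i.succ := fun ε => by ring
      rw [Finset.sum_congr rfl fun ε _ => this ε, ← Finset.mul_sum, i1, mul_zero]
    · rw [e2]
      have : ∀ ε : Fin d → Bool, (((∑ i, sg (ε i) * a i.succ) + a 0) ^ 2 +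
        ((∑ i, sg (ε i) * a i.succ) - a 0) ^ 2) =
          2 * (∑ i, sg (ε i) * a i.succ) ^ 2 + 2 * a 0 ^ 2 := fun ε => by ring
      rw [Finset.sum_congr rfl fun ε _ => this ε, Finset.sum_add_distrib, ← Finset.mul_sum, i2,
        Fin.sum_univ_succ]
      simp only [Finset.sum_const, Finset.card_univ, Fintype.card_pi, Fintype.card_bool,
        Finset.prod_const, Fintype.card_fin, nsmul_eq_mul]
      push_cast
      ring
    · rw [e3]
      have : ∀ ε : Fin d → Bool, (((∑ i, sg (ε i) * a i.succ) + a 0) ^ 3 +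
        ((∑ i, sg (ε i) * a i.succ) - a 0) ^ 3) =
          2 * (∑ i, sg (ε i) * a i.succ) ^ 3 + (6 * a 0 ^ 2) * ∑ i, sg (ε i) * a i.succ :=
        fun ε => by ring
      rw [Finset.sum_congr rfl fun ε _ => this ε, Finset.sum_add_distrib, ← Finset.mul_sum,
        ← Finset.mul_sum, i1, i3]
      ring
    · rw [e4]
      have : ∀ ε : Fin d → Bool, (((∑ i, sg (ε i) * a i.succ) + a 0) ^ 4 +
        ((∑ i, sg (ε i) * a i.succ) - a 0) ^ 4) =
          2 * (∑ i, sg (ε i) * a i.succ) ^ 4 + (12 * a 0 ^ 2) * (∑ i, sg (ε i) * a i.succ) ^ 2 +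
            2 * a 0 ^ 4 := fun ε => by ring
      rw [Finset.sum_congr rfl fun ε _ => this ε, Finset.sum_add_distrib, Finset.sum_add_distrib,
        ← Finset.mul_sum, ← Finset.mul_sum, i2, Fin.sum_univ_succ]
      simp only [Finset.sum_const, Finset.card_univ, Fintype.card_pi, Fintype.card_bool,
        Finset.prod_const, Fintype.card_fin, nsmul_eq_mul]
      push_cast
      have h5 : (0 : ℝ) < 2 ^ d := by positivity
      have h6 : 0 ≤ (2 : ℝ) ^ d * a 0 ^ 4 := by positivity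
      have h7 : (3 : ℝ) * 2 ^ (d + 1) * (a 0 ^ 2 + ∑ i : Fin d, a i.succ ^ 2) ^ 2 =
        2 * (3 * 2 ^ d * (∑ i : Fin d, a i.succ ^ 2) ^ 2) +
          12 * a 0 ^ 2 * (2 ^ d * ∑ i : Fin d, a i.succ ^ 2) + 6 * (2 ^ d * a 0 ^ 4) := by
        rw [pow_succ]
        ring
      rw [h7]
      nlinarith [i4, h6]

end Pool.Agent.XPM
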