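import Pool.Agent.XPM.St

set_option autoImplicit false

/-!
# XPM, module SY: orthogonal copies of the block, flattened
-/

namespace Pool.Agent.XPM

open Finset

private theorem SY_inner {n : ℕ} (x y : EuclideanSpace ℝ (Fin n)) :
    (inner ℝ x y : ℝ) = ∑ c, x c * y c := by
  rw [PiLp.inner_apply]
  refine Finset.sum_congr rfl fun c _ => ?_
  simp [mul_comm]

private theorem SY_sum {m n : ℕ} (f : Fin m × Fin n → ℝ) :
    ∑ c : Fin (m * n), f (finProdFinEquiv.symm c) = ∑ k : Fin m, ∑ c : Fin n, f (k, c) := by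
  rw [Equiv.sum_comp finProdFinEquiv.symm f, Fintype.sum_prod_type]

theorem thm_SY (hHA : St_HA) : St_SY := by
  intro m n0 N0 b hm hb
  obtain ⟨W, hW1, hW2⟩ := hHA m hm
  set F : Fin m × Fin N0 → Fin m × Fin n0 → ℝ := fun p q => W p.1 q.1 * b p.2 q.2 with hF
  have key : ∀ p q : Fin m × Fin N0, ∑ c : Fin (m * n0),
      F p (finProdFinEquiv.symm c) * F q (finProdFinEquiv.symm c) =
      (if p.1 = q.1 then 1 else 0) * (inner ℝ (b p.2) (b q.2) : ℝ) := by
    intro p q
    rw [SY_sum (fun r => F p r * F q r), SY_inner, ← hW1, Finset.sum_mul_sum]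
    refine Finset.sum_congr rfl fun k _ => Finset.sum_congr rfl fun c _ => ?_
    simp only [hF]
    ring
  have hbs : ∀ x, ∑ c, b x c * b x c = 1 := by
    intro x
    rw [← SY_inner, real_inner_self_eq_norm_sq, hb x]
    norm_num
  refine ⟨fun i c => F (finProdFinEquiv.symm i) (finProdFinEquiv.symm c), ?_, ?_, ?_⟩
  · intro i
    have h := key (finProdFinEquiv.symm i) (finProdFinEquiv.symm i)
    rw [if_pos rfl, one_mul, SY_inner, hbs] at h
    rw [← h]
    exact Finset.sum_congr rfl fun c _ => sq _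
  · intro i c
    set p := finProdFinEquiv.symm i
    set q := finProdFinEquiv.symm c
    have h1 : (b p.2 q.2) * (b p.2 q.2) ≤ 1 := by
      rw [← hbs p.2]
      exact Finset.single_le_sum (f := fun c => b p.2 c * b p.2 c)
        (fun c _ => mul_self_nonneg _) (Finset.mem_univ q.2)
    have h2 := hW2 p.1 q.1
    show (W p.1 q.1 * b p.2 q.2) ^ 2 ≤ 2 / m
    rw [mul_pow]
    calc W p.1 q.1 ^ 2 * (b p.2 q.2) ^ 2 ≤ W p.1 q.1 ^ 2 * 1 :=
          mul_le_mul_of_nonneg_left (by rw [sq]; exact h1) (sq_nonneg _)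
      _ ≤ 2 / m := by rw [mul_one]; exact h2
  · intro e he
    have h1 : ∀ i j : Fin (m * N0),
        (∑ c, F (finProdFinEquiv.symm i) (finProdFinEquiv.symm c) *
          F (finProdFinEquiv.symm j) (finProdFinEquiv.symm c)) ^ e =
        (fun p q : Fin m × Fin N0 => (if p.1 = q.1 then (inner ℝ (b p.2) (b q.2) : ℝ) ^ e else 0))
          (finProdFinEquiv.symm i) (finProdFinEquiv.symm j) := by
      intro i j
      rw [key]
      by_cases h : (finProdFinEquiv.symm i).1 = (finProdFinEquiv.symm j).1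
      · rw [if_pos h, one_mul]
        exact (if_pos h).symm
      · rw [if_neg h, zero_mul, zero_pow (by omega)]
        exact (if_neg h).symm
    have h2 : ∑ i : Fin (m * N0), ∑ j : Fin (m * N0),
        (∑ c, F (finProdFinEquiv.symm i) (finProdFinEquiv.symm c) *
          F (finProdFinEquiv.symm j) (finProdFinEquiv.symm c)) ^ e =
        ∑ k : Fin m, ∑ x : Fin N0, ∑ l : Fin m, ∑ z : Fin N0,
          (if k = l then (inner ℝ (b x) (b z) : ℝ) ^ e else 0) := by
      rw [Finset.sum_congr rfl fun i _ => Finset.sum_congr rfl fun j _ => h1 i j]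
      rw [SY_sum (fun p : Fin m × Fin N0 => ∑ j : Fin (m * N0),
        (fun p q : Fin m × Fin N0 => (if p.1 = q.1 then (inner ℝ (b p.2) (b q.2) : ℝ) ^ e else 0))
          p (finProdFinEquiv.symm j))]
      refine Finset.sum_congr rfl fun k _ => Finset.sum_congr rfl fun x _ => ?_
      exact SY_sum (fun q : Fin m × Fin N0 =>
        (if k = q.1 then (inner ℝ (b x) (b q.2) : ℝ) ^ e else 0))
    refine h2.trans ?_
    have h3 : ∀ k : Fin m, ∑ x : Fin N0, ∑ l : Fin m, ∑ z : Fin N0,
          (if k = l then (inner ℝ (b x) (b z) : ℝ) ^ e else 0) =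
        ∑ x : Fin N0, ∑ z : Fin N0, (inner ℝ (b x) (b z) : ℝ) ^ e := by
      intro k
      refine Finset.sum_congr rfl fun x _ => ?_
      rw [Finset.sum_eq_single k]
      · exact Finset.sum_congr rfl fun z _ => if_pos rfl
      · intro l _ hl
        exact Finset.sum_eq_zero fun z _ => if_neg (fun h => hl h.symm)
      · intro h
        exact absurd (Finset.mem_univ k) h
    rw [Finset.sum_congr rfl fun k _ => h3 k, Finset.sum_const, Finset.card_univ, Fintype.card_fin,
      nsmul_eq_mul]

end Pool.Agent.XPM
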