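import Pool.Agent.XPM.St

/-!
MP_b22a07_co, theorem E: one system.
-/

set_option autoImplicit false

namespace Pool.Agent.XPM

open Finset

private theorem TO_abs {n : ℕ} (x y : Fin n → ℝ) (hx : ∑ c, x c ^ 2 = 1) (hy : ∑ c, y c ^ 2 = 1) :
    -1 ≤ ∑ c, x c * y c ∧ ∑ c, x c * y c ≤ 1 := by
  have h := Finset.sum_mul_sq_le_sq_mul_sq Finset.univ x y
  rw [hx, hy, mul_one] at h
  exact abs_le.1 ((sq_le_one_iff_abs_le_one _).1 h)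

theorem thm_TO (hU2 : St_U2) (hXB : St_XB) (hSY : St_SY) : St_TO := by
  intro p m hp h3 hm
  obtain ⟨b, hb, b1, b2, b3, b4⟩ := hXB p hp h3
  obtain ⟨Y, hY1, hY2, hY3⟩ := hSY m (p ^ 2 * (p - 1)) (p ^ 4) b hm hb
  refine ⟨Y, hY1, hY2, ?_⟩
  have s1 := hY3 1 le_rfl
  have s2 := hY3 2 (by norm_num)
  have s3 := hY3 3 (by norm_num)
  have s4 := hY3 4 (by norm_num)
  simp only [pow_one] at s1
  rw [b1, mul_zero] at s1
  rw [b2] at s2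
  have hpr : (3 : ℝ) ≤ p := by exact_mod_cast h3
  have hmr : (0 : ℝ) < m := by exact_mod_cast hm
  have s3' : ∑ i, ∑ j, (∑ c, Y i c * Y j c) ^ 3 ≤ m * ((p : ℝ) ^ 4 * (p / ((p : ℝ) - 1) ^ 2)) := by
    rw [s3]
    exact mul_le_mul_of_nonneg_left b3 hmr.le
  have s4' : ∑ i, ∑ j, (∑ c, Y i c * Y j c) ^ 4 ≤
      m * ((p : ℝ) ^ 4 * (((p : ℝ) ^ 2 + p + 1) / ((p : ℝ) - 1) ^ 2)) := by
    rw [s4]
    exact mul_le_mul_of_nonneg_left b4 hmr.le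
  have hlow : ∑ i, ∑ j, (1 - (∑ c, Y i c * Y j c) / 2 - (∑ c, Y i c * Y j c) ^ 2 / 8
      - (∑ c, Y i c * Y j c) ^ 3 / 16 - 5 / 16 * (∑ c, Y i c * Y j c) ^ 4) ≤
      ∑ i, ∑ j, ff (∑ c, Y i c * Y j c) := by
    refine Finset.sum_le_sum fun i _ => Finset.sum_le_sum fun j _ => ?_
    obtain ⟨ha, hc⟩ := TO_abs (Y i) (Y j) (hY1 i) (hY1 j)
    have := hU2 _ ha hc
    unfold t3 at this
    exact this
  refine le_trans ?_ hlow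
  simp only [Finset.sum_sub_distrib, ← Finset.sum_div, ← Finset.mul_sum, Finset.sum_const,
    Finset.card_univ, Fintype.card_fin, nsmul_eq_mul, mul_one]
  rw [s1, s2]
  push_cast
  have hp1 : (0 : ℝ) < (p : ℝ) - 1 := by linarith
  have hp0 : (0 : ℝ) < (p : ℝ) := by linarith
  have e1 : ((m : ℝ) * p ^ 4) ^ 2 * (1 - 1 / (8 * (m * ((p : ℝ) ^ 2 * (p - 1))))) =
      (m : ℝ) * p ^ 4 * (m * p ^ 4) - m * ((p : ℝ) ^ 8 / ((p : ℝ) ^ 2 * ((p : ℝ) - 1))) / 8 := by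
    field_simp
  have e2 : (5 / 16 + p / ((p : ℝ) - 1) ^ 2) * (m * p ^ 4) =
      m * ((p : ℝ) ^ 4 * (p / ((p : ℝ) - 1) ^ 2)) / 16 +
      5 / 16 * (m * ((p : ℝ) ^ 4 * (((p : ℝ) ^ 2 + p + 1) / ((p : ℝ) - 1) ^ 2))) := by
    field_simp
    ring
  rw [e1, e2]
  linarith

end Pool.Agent.XPM
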