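import Pool.Agent.XPM.St

/-!
# XPM : module UB, the upper bound for the sum
-/

set_option autoImplicit false

namespace Pool.Agent.XPM

open Finset

section UB

private theorem UB_gram {ι κ : Type} [Fintype ι] [Fintype κ] (V : ι → κ → ℝ) :
    ∑ i, ∑ j, ∑ α, V i α * V j α = ∑ α, (∑ i, V i α) ^ 2 := by
  have h1 : ∀ α, (∑ i, V i α) ^ 2 = ∑ i, ∑ j, V i α * V j α := by
    intro α
    rw [sq, Finset.sum_mul_sum]
  rw [Finset.sum_congr rfl fun α _ => h1 α]
  rw [Finset.sum_comm (s := Finset.univ (α := κ)) (t := Finset.univ (α := ι))]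
  refine Finset.sum_congr rfl fun i _ => ?_
  rw [Finset.sum_comm]

private theorem UB_mul {κ κ' : Type} [Fintype κ] [Fintype κ'] (u v : κ → ℝ) (u' v' : κ' → ℝ) :
    (∑ a, u a * v a) * (∑ b, u' b * v' b) =
      ∑ z : κ × κ', (u z.1 * u' z.2) * (v z.1 * v' z.2) := by
  rw [Finset.sum_mul_sum, Fintype.sum_prod_type]
  refine Finset.sum_congr rfl fun a _ => Finset.sum_congr rfl fun b _ => ?_
  ring

private theorem UB_ff_one : ff 1 = 0 := by
  unfold ff
  rw [sub_self, Real.sqrt_zero]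

/-- **UB** -/
theorem thm_UB (h : St_U1) : St_UB := by
  intro d N x hd hx
  have ht : ∀ i j, (inner ℝ (x i) (x j) : ℝ) = ∑ a, x i a * x j a := by
    intro i j
    rw [PiLp.inner_apply]
    refine Finset.sum_congr rfl fun a _ => ?_
    show x j a * x i a = x i a * x j a
    ring
  have hself : ∀ i, (inner ℝ (x i) (x i) : ℝ) = 1 := by
    intro i
    rw [real_inner_self_eq_norm_sq, hx i, one_pow]
  have hle : ∀ i j, |(inner ℝ (x i) (x j) : ℝ)| ≤ 1 := by
    intro i j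
    have h1 := abs_real_inner_le_norm (x i) (x j)
    rw [hx i, hx j, mul_one] at h1
    exact h1
  have h1 : ∀ i j, ff (inner ℝ (x i) (x j)) ≤
      t3 (inner ℝ (x i) (x j)) - if i = j then 5 / 16 else 0 := by
    intro i j
    by_cases hij : i = j
    · subst hij
      rw [if_pos rfl, hself, UB_ff_one]
      unfold t3
      norm_num
    · rw [if_neg hij, sub_zero]
      exact h _ (abs_le.1 (hle i j)).1 (abs_le.1 (hle i j)).2
  have hs : ∑ i : Fin N, ∑ j : Fin N, (if i = j then (5 / 16 : ℝ) else 0) = 5 / 16 * N := by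
    have h2 : ∀ i : Fin N, ∑ j : Fin N, (if i = j then (5 / 16 : ℝ) else 0) = 5 / 16 := by
      intro i
      rw [Finset.sum_ite_eq, if_pos (Finset.mem_univ i)]
    rw [Finset.sum_congr rfl fun i _ => h2 i, Finset.sum_const, Finset.card_univ,
      Fintype.card_fin, nsmul_eq_mul]
    ring
  have hS1 : 0 ≤ ∑ i, ∑ j, (inner ℝ (x i) (x j) : ℝ) := by
    have h2 : ∑ i, ∑ j, (inner ℝ (x i) (x j) : ℝ) = ∑ a, (∑ i, x i a) ^ 2 := by
      rw [← UB_gram (fun i a => x i a)]
      exact Finset.sum_congr rfl fun i _ => Finset.sum_congr rfl fun j _ => ht i j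
    rw [h2]
    exact Finset.sum_nonneg fun a _ => sq_nonneg _
  have hS2 : (N : ℝ) ^ 2 / d ≤ ∑ i, ∑ j, (inner ℝ (x i) (x j) : ℝ) ^ 2 := by
    have h2 : ∑ i, ∑ j, (inner ℝ (x i) (x j) : ℝ) ^ 2 =
        ∑ z : Fin d × Fin d, (∑ i, x i z.1 * x i z.2) ^ 2 := by
      rw [← UB_gram (fun i (z : Fin d × Fin d) => x i z.1 * x i z.2)]
      refine Finset.sum_congr rfl fun i _ => Finset.sum_congr rfl fun j _ => ?_
      rw [ht i j, sq, UB_mul]
    rw [h2, Fintype.sum_prod_type]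
    have h3 : ∑ a, (∑ i, x i a * x i a) ^ 2 ≤
        ∑ a, ∑ b, (∑ i, x i a * x i b) ^ 2 := by
      refine Finset.sum_le_sum fun a _ => ?_
      exact Finset.single_le_sum (f := fun b => (∑ i, x i a * x i b) ^ 2)
        (fun b _ => sq_nonneg _) (Finset.mem_univ a)
    refine le_trans ?_ h3
    have h4 : ∑ a, ∑ i, x i a * x i a = (N : ℝ) := by
      rw [Finset.sum_comm]
      have h5 : ∀ i, ∑ a, x i a * x i a = 1 := fun i => by rw [← ht i i, hself i]
      rw [Finset.sum_congr rfl fun i _ => h5 i, Finset.sum_const, Finset.card_univ,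
        Fintype.card_fin, nsmul_eq_mul, mul_one]
    have h5 := sq_sum_le_card_mul_sum_sq (s := Finset.univ (α := Fin d))
      (f := fun a => ∑ i, x i a * x i a)
    rw [h4, Finset.card_univ, Fintype.card_fin] at h5
    have hd' : (0 : ℝ) < d := by exact_mod_cast hd
    rw [div_le_iff₀ hd', mul_comm]
    exact h5
  have hS3 : 0 ≤ ∑ i, ∑ j, (inner ℝ (x i) (x j) : ℝ) ^ 3 := by
    have h2 : ∑ i, ∑ j, (inner ℝ (x i) (x j) : ℝ) ^ 3 =
        ∑ z : (Fin d × Fin d) × Fin d, (∑ i, (x i z.1.1 * x i z.1.2) * x i z.2) ^ 2 := by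
      rw [← UB_gram (fun i (z : (Fin d × Fin d) × Fin d) => (x i z.1.1 * x i z.1.2) * x i z.2)]
      refine Finset.sum_congr rfl fun i _ => Finset.sum_congr rfl fun j _ => ?_
      rw [ht i j, pow_succ, sq, UB_mul,
        UB_mul (fun z : Fin d × Fin d => x i z.1 * x i z.2)
          (fun z : Fin d × Fin d => x j z.1 * x j z.2)]
    rw [h2]
    exact Finset.sum_nonneg fun a _ => sq_nonneg _
  have hsum : ∑ i, ∑ j, t3 (inner ℝ (x i) (x j)) =
      (N : ℝ) ^ 2 - (∑ i, ∑ j, (inner ℝ (x i) (x j) : ℝ)) / 2 -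
        (∑ i, ∑ j, (inner ℝ (x i) (x j) : ℝ) ^ 2) / 8 -
        (∑ i, ∑ j, (inner ℝ (x i) (x j) : ℝ) ^ 3) / 16 := by
    unfold t3
    simp only [Finset.sum_sub_distrib, Finset.sum_div]
    have h6 : ∑ i : Fin N, ∑ j : Fin N, (1 : ℝ) = (N : ℝ) ^ 2 := by
      simp only [Finset.sum_const, Finset.card_univ, Fintype.card_fin, nsmul_eq_mul, mul_one]
      ring
    rw [h6]
  calc ∑ i, ∑ j, ff (inner ℝ (x i) (x j))
      ≤ ∑ i, ∑ j, (t3 (inner ℝ (x i) (x j)) - if i = j then 5 / 16 else 0) :=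
        Finset.sum_le_sum fun i _ => Finset.sum_le_sum fun j _ => h1 i j
    _ = ∑ i, ∑ j, t3 (inner ℝ (x i) (x j)) - 5 / 16 * N := by
        simp only [Finset.sum_sub_distrib]
        rw [hs]
    _ ≤ (N : ℝ) ^ 2 - (N : ℝ) ^ 2 / (8 * d) - 5 / 16 * N := by
        rw [hsum]
        have h7 : (N : ℝ) ^ 2 / (8 * d) = (N : ℝ) ^ 2 / d / 8 := by
          rw [div_div, mul_comm (d : ℝ) 8]
        rw [h7]
        linarith

end UB

end Pool.Agent.XPM
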