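import Pool.Agent.XPM.St

set_option autoImplicit false

/-!
MP_b22a07_co, module XB: the block.
-/

namespace Pool.Agent.XPM

open Finset

private theorem XB_sum_r {V : Type} [AddCommGroup V] [Fintype V] [DecidableEq V] (H : Finset V) :
    ∑ w : V, (H.filter (fun a => w - a ∈ H)).card = H.card ^ 2 := by
  have h1 : ∀ w : V, (H.filter (fun a => w - a ∈ H)).card =
      ∑ a ∈ H, if w - a ∈ H then 1 else 0 := fun w => Finset.card_filter _ _
  rw [Finset.sum_congr rfl fun w _ => h1 w, Finset.sum_comm]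
  have h2 : ∀ a ∈ H, (∑ w : V, if w - a ∈ H then 1 else 0) = H.card := by
    intro a _
    rw [← Finset.card_filter]
    refine Finset.card_bij (fun w _ => w - a) ?_ ?_ ?_
    · intro w hw
      exact (Finset.mem_filter.1 hw).2
    · intro w _ w' _ h
      exact sub_left_injective h
    · intro b hb
      exact ⟨b + a, Finset.mem_filter.2 ⟨Finset.mem_univ _, by rwa [add_sub_cancel_right]⟩,
        add_sub_cancel_right b a⟩
  rw [Finset.sum_congr rfl h2, Finset.sum_const, smul_eq_mul, sq]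

private theorem XB_r4 {V : Type} [AddCommGroup V] [Fintype V] [DecidableEq V] (H : Finset V)
    (hs : ∀ h ∈ H, -h ∈ H) (B : ℕ)
    (hB : ∀ w : V, w ≠ 0 → (H.filter (fun a => w - a ∈ H)).card ≤ B) :
    ∑ w : V, ((H.filter (fun a => w - a ∈ H)).card : ℝ) ^ 2 ≤ (B + 1) * (H.card : ℝ) ^ 2 := by
  have h0 : (H.filter (fun a => (0 : V) - a ∈ H)).card = H.card := by
    congr 1
    refine Finset.filter_true_of_mem fun a ha => ?_
    rw [zero_sub]
    exact hs a ha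
  have hsum : ∑ w : V, ((H.filter (fun a => w - a ∈ H)).card : ℝ) = (H.card : ℝ) ^ 2 := by
    exact_mod_cast XB_sum_r H
  rw [← Finset.add_sum_erase Finset.univ _ (Finset.mem_univ (0 : V))]
  rw [← Finset.add_sum_erase Finset.univ _ (Finset.mem_univ (0 : V))] at hsum
  rw [h0] at hsum ⊢
  have h1 : ∑ w ∈ Finset.univ.erase (0 : V), ((H.filter (fun a => w - a ∈ H)).card : ℝ) ^ 2 ≤
      ∑ w ∈ Finset.univ.erase (0 : V), (B : ℝ) * ((H.filter (fun a => w - a ∈ H)).card : ℝ) := by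
    refine Finset.sum_le_sum fun w hw => ?_
    have h2 : ((H.filter (fun a => w - a ∈ H)).card : ℝ) ≤ B := by
      exact_mod_cast hB w (Finset.mem_erase.1 hw).1
    rw [sq]
    exact mul_le_mul_of_nonneg_right h2 (Nat.cast_nonneg _)
  rw [← Finset.mul_sum] at h1
  have h2 : ∑ w ∈ Finset.univ.erase (0 : V), ((H.filter (fun a => w - a ∈ H)).card : ℝ) ≤
      (H.card : ℝ) ^ 2 := by
    have h3 : (0 : ℝ) ≤ H.card := Nat.cast_nonneg _
    linarith
  have h3 := mul_le_mul_of_nonneg_left h2 (Nat.cast_nonneg (α := ℝ) B)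
  nlinarith

theorem thm_XB (hK1 : St_K1) (hK2 : St_K2) (hK3 : St_K3) (hHF : St_HF) (hHM : St_HM) :
    St_XB := by
  intro p hp hp3
  have : Fact p.Prime := ⟨hp⟩
  obtain ⟨δ, hδ⟩ : ∃ δ : ZMod p, ¬ IsSquare δ := FiniteField.exists_nonsquare (by
    rw [ZMod.ringChar_zmod_n]
    omega)
  obtain ⟨H, hH⟩ : ∃ H, H = capH p δ := ⟨_, rfl⟩
  have hcard : H.card = p ^ 2 * (p - 1) := by rw [hH]; exact hK1 p δ
  have hp1 : 1 ≤ p - 1 := by omega
  have hmem : ∀ h : Fin 4 → ZMod p, h ∈ H ↔ h 0 ≠ 0 ∧ h 0 * h 3 = h 1 ^ 2 - δ * h 2 ^ 2 := by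
    intro h
    rw [hH]
    unfold capH
    rw [Finset.mem_filter]
    exact ⟨fun h => h.2, fun h => ⟨Finset.mem_univ _, h⟩⟩
  have hs : ∀ h ∈ H, -h ∈ H := by
    intro h hh
    rw [hmem] at hh ⊢
    refine ⟨by simpa using hh.1, ?_⟩
    simp only [Pi.neg_apply]
    linear_combination hh.2
  have h0 : (0 : Fin 4 → ZMod p) ∉ H := by
    rw [hmem]
    intro h
    exact h.1 rfl
  have hcpos : 0 < H.card := by
    rw [hcard]
    positivity
  have hne : H.Nonempty := Finset.card_pos.1 hcpos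
  have hHF' : ∀ n : ℕ, H.card = n → ∃ b : (Fin 4 → ZMod p) → EuclideanSpace ℝ (Fin n),
      (∀ x, ‖b x‖ = 1) ∧ ∀ x y, (((H.card : ℝ) * (inner ℝ (b x) (b y) : ℝ) : ℝ) : ℂ)
      = ∑ h ∈ H, ZMod.stdAddChar (∑ i, h i * (x i - y i)) := by
    rintro n rfl
    exact hHF p H hs hne
  obtain ⟨b, hb1, hb2⟩ := hHF' _ hcard
  obtain ⟨m1, m2, m3, m4⟩ := hHM p H hs h0 hne (fun x y => inner ℝ (b x) (b y)) hb2
  obtain ⟨e⟩ : Nonempty (Fin (p ^ 4) ≃ (Fin 4 → ZMod p)) := by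
    refine ⟨(Fintype.equivFinOfCardEq ?_).symm⟩
    rw [Fintype.card_fun, ZMod.card, Fintype.card_fin]
  have hre : ∀ k : ℕ, ∑ i, ∑ j, (inner ℝ (b (e i)) (b (e j)) : ℝ) ^ k =
      ∑ x : Fin 4 → ZMod p, ∑ y : Fin 4 → ZMod p, (inner ℝ (b x) (b y) : ℝ) ^ k := by
    intro k
    rw [← e.sum_comp]
    refine Finset.sum_congr rfl fun i _ => ?_
    rw [← e.sum_comp]
  have hcR : (H.card : ℝ) = (p : ℝ) ^ 2 * ((p : ℝ) - 1) := by
    rw [hcard]
    push_cast [Nat.cast_sub hp.one_le]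
    ring
  have hpR : (3 : ℝ) ≤ p := by exact_mod_cast hp3
  have hq : (0 : ℝ) < (p : ℝ) - 1 := by linarith
  have hpp : (0 : ℝ) < p := by linarith
  have hcR0 : (0 : ℝ) < H.card := by exact_mod_cast hcpos
  refine ⟨fun i => b (e i), fun i => hb1 _, ?_, ?_, ?_, ?_⟩
  · have := hre 1
    simp only [pow_one] at this
    rw [this]
    exact m1
  · rw [hre 2, m2, hcR]
  · rw [hre 3, m3]
    have h1 : (((H ×ˢ H).filter (fun z => z.1 + z.2 ∈ H)).card : ℝ) ≤ H.card * p := by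
      have := hK2 p δ hδ
      rw [← hH] at this
      exact_mod_cast this
    rw [div_le_iff₀ (by positivity)]
    have h2 : (p : ℝ) ^ 4 * (p / ((p : ℝ) - 1) ^ 2) * (H.card : ℝ) ^ 3 =
        (p : ℝ) ^ 8 * (H.card * p) := by
      have h3 : (H.card : ℝ) ^ 3 = (H.card : ℝ) * ((p : ℝ) ^ 2 * ((p : ℝ) - 1)) ^ 2 := by
        rw [← hcR]
        ring
      rw [h3]
      field_simp
    rw [h2]
    exact mul_le_mul_of_nonneg_left h1 (by positivity)
  · rw [hre 4, m4]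
    have h1 := XB_r4 H hs (p ^ 2 + p) (by
      intro w hw
      rw [hH]
      exact hK3 p δ hδ w hw)
    rw [div_le_iff₀ (by positivity)]
    have h2 : (p : ℝ) ^ 4 * (((p : ℝ) ^ 2 + p + 1) / ((p : ℝ) - 1) ^ 2) * (H.card : ℝ) ^ 4 =
        (p : ℝ) ^ 8 * (((p : ℝ) ^ 2 + p + 1) * (H.card : ℝ) ^ 2) := by
      have h3 : (H.card : ℝ) ^ 4 = (H.card : ℝ) ^ 2 * ((p : ℝ) ^ 2 * ((p : ℝ) - 1)) ^ 2 := by
        rw [← hcR]
        ring
      rw [h3]
      field_simp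
    rw [h2]
    refine mul_le_mul_of_nonneg_left ?_ (by positivity)
    push_cast at h1
    exact h1

end Pool.Agent.XPM
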