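import Pool.Agent.XPM.U
import Pool.Agent.XPM.UB
import Pool.Agent.XPM.K1
import Pool.Agent.XPM.K3
import Pool.Agent.XPM.HF
import Pool.Agent.XPM.HM
import Pool.Agent.XPM.XB
import Pool.Agent.XPM.HA
import Pool.Agent.XPM.SY
import Pool.Agent.XPM.SG
import Pool.Agent.XPM.AV
import Pool.Agent.XPM.GR
import Pool.Agent.XPM.TO
import Pool.Agent.XPM.CT
import Pool.Agent.XPM.RM
import Pool.Agent.XPM.EM
import Pool.Agent.XPM.PE
import Pool.Agent.XPM.N1
import Pool.Agent.XPM.N2

set_option autoImplicit false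

/-! Assembly of Theorem E (MP_b22a07_co). -/

namespace Pool.Agent.XPM

theorem all_UB : St_UB := thm_UB thm_U1

theorem all_XB : St_XB := thm_XB thm_K1 thm_K2 thm_K3 thm_HF thm_HM

theorem all_TO : St_TO := thm_TO thm_U2 all_XB (thm_SY thm_HA)

theorem all_CT : St_CT := thm_CT all_TO (thm_GR (thm_AV thm_U2 thm_SG))

theorem all_N2 : St_N2 := thm_N2 (thm_N1 all_CT thm_RM thm_EM) thm_PE

end Pool.Agent.XPM
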