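import Pool.Agent.XPM.All

set_option autoImplicit false

open Finset

namespace Pool.Agent.Results.MP_b22a07_co.AsymptoticFormula

/-- `P` is a set of `N` points of the unit sphere `S^k` of `ℝ^{k+1}`. -/
def IsConfig (N k : ℕ) (P : Finset (EuclideanSpace ℝ (Fin (k + 1)))) : Prop :=
  P.card = N ∧ ∀ p ∈ P, ‖p‖ = 1

/-- `L(N,k,P)`: the sum of the Euclidean distances over the unordered pairs of points of `P`
(half of the sum over ordered pairs). -/
noncomputable def pairSum {k : ℕ} (P : Finset (EuclideanSpace ℝ (Fin (k + 1)))) : ℝ :=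
  (∑ p ∈ P, ∑ q ∈ P, dist p q) / 2

/-- The main term `(N^2 - N^2/(8(k+1)) - (5/16) N)/√2`. -/
noncomputable def mainTerm (N k : ℕ) : ℝ :=
  ((N : ℝ) ^ 2 - (N : ℝ) ^ 2 / (8 * ((k : ℝ) + 1)) - 5 / 16 * N) / √2

/-- **Theorem.** Every set of `N` points of `S^k` has distance sum at most `mainTerm N k`, and for
`k + 1 ≤ N ≤ (k+1)^2` some set of `N` points has distance sum at least
`mainTerm N k - C N (((k+1)/N)^(1/2) + (N/(k+1)^2)^(1/4))`, with an absolute constant `C`. -/
theorem result :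
    (∀ (N k : ℕ) (P : Finset (EuclideanSpace ℝ (Fin (k + 1)))), IsConfig N k P →
      pairSum P ≤ mainTerm N k) ∧
    ∃ C : ℝ, 0 < C ∧ ∀ N k : ℕ, 1 ≤ k → k + 1 ≤ N → N ≤ (k + 1) ^ 2 →
      ∃ P : Finset (EuclideanSpace ℝ (Fin (k + 1))), IsConfig N k P ∧
        mainTerm N k - C * N * ((((k : ℝ) + 1) / N) ^ (1 / 2 : ℝ)
          + ((N : ℝ) / ((k : ℝ) + 1) ^ 2) ^ (1 / 4 : ℝ)) ≤ pairSum P := by
  have hs2 : 0 < √2 := by positivity
  have hss : √2 * √2 = (2 : ℝ) := Real.mul_self_sqrt (by norm_num)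
  have hdist : ∀ (k : ℕ) (x y : EuclideanSpace ℝ (Fin (k + 1))), ‖x‖ = 1 → ‖y‖ = 1 →
      dist x y = √2 * Pool.Agent.XPM.ff (inner ℝ x y) := by
    intro k x y hx hy
    unfold Pool.Agent.XPM.ff
    rw [← Real.sqrt_mul (by norm_num : (0 : ℝ) ≤ 2), dist_eq_norm]
    have h := norm_sub_sq_real x y
    rw [hx, hy] at h
    rw [← Real.sqrt_sq (norm_nonneg (x - y)), h]
    congr 1
    ring
  constructor
  · intro N k P hP
    obtain ⟨hP1, hP2⟩ := hP
    let e : Fin N ≃ P := (P.equivFinOfCardEq hP1).symm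
    let x : Fin N → EuclideanSpace ℝ (Fin (k + 1)) := fun i => (e i : EuclideanSpace ℝ (Fin (k + 1)))
    have hx : ∀ i, ‖x i‖ = 1 := fun i => hP2 _ (e i).2
    have hsum : ∀ F : EuclideanSpace ℝ (Fin (k + 1)) → ℝ, ∑ p ∈ P, F p = ∑ i, F (x i) := by
      intro F
      rw [← Finset.sum_coe_sort P F]
      exact (Equiv.sum_comp e (fun p => F (p : EuclideanSpace ℝ (Fin (k + 1))))).symm
    have hub := Pool.Agent.XPM.all_UB (k + 1) N x (Nat.succ_pos k) hx
    have hval : ∑ p ∈ P, ∑ q ∈ P, dist p q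
        = √2 * ∑ i, ∑ j, Pool.Agent.XPM.ff (inner ℝ (x i) (x j)) := by
      rw [hsum, Finset.mul_sum]
      refine Finset.sum_congr rfl fun i _ => ?_
      rw [hsum, Finset.mul_sum]
      refine Finset.sum_congr rfl fun j _ => ?_
      exact hdist k _ _ (hx i) (hx j)
    unfold pairSum mainTerm
    rw [hval, le_div_iff₀ hs2]
    push_cast at hub
    have : √2 * (∑ i, ∑ j, Pool.Agent.XPM.ff (inner ℝ (x i) (x j))) / 2 * √2
        = ∑ i, ∑ j, Pool.Agent.XPM.ff (inner ℝ (x i) (x j)) := by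
      linear_combination (∑ i, ∑ j, Pool.Agent.XPM.ff (inner ℝ (x i) (x j))) / 2 * hss
    rw [this]
    exact hub
  · obtain ⟨C, hC, hmain⟩ := Pool.Agent.XPM.all_N2
    refine ⟨C, hC, fun N k hk h1 h2 => ?_⟩
    obtain ⟨X, hinj, hX, hsum⟩ := hmain (k + 1) N (by omega) h1 h2
    have hNpos : (0 : ℝ) < N := by
      have : 0 < N := by omega
      exact_mod_cast this
    have hd : (0 : ℝ) < (k : ℝ) + 1 := by positivity
    have hsumX : ∀ F : EuclideanSpace ℝ (Fin (k + 1)) → ℝ,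
        ∑ p ∈ Finset.univ.image X, F p = ∑ i, F (X i) := by
      intro F
      exact Finset.sum_image (fun a _ b _ h => hinj h)
    have hval : ∑ p ∈ Finset.univ.image X, ∑ q ∈ Finset.univ.image X, dist p q
        = √2 * ∑ i, ∑ j, Pool.Agent.XPM.ff (inner ℝ (X i) (X j)) := by
      rw [hsumX, Finset.mul_sum]
      refine Finset.sum_congr rfl fun i _ => ?_
      rw [hsumX, Finset.mul_sum]
      refine Finset.sum_congr rfl fun j _ => ?_
      exact hdist k _ _ (hX i) (hX j)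
    refine ⟨Finset.univ.image X, ⟨?_, ?_⟩, ?_⟩
    · rw [Finset.card_image_of_injective _ hinj, Finset.card_univ, Fintype.card_fin]
    · intro p hp
      obtain ⟨i, _, rfl⟩ := Finset.mem_image.1 hp
      exact hX i
    · unfold pairSum mainTerm
      rw [hval]
      have e1 : √(((k + 1 : ℕ) : ℝ) / N) = (((k : ℝ) + 1) / N) ^ (1 / 2 : ℝ) := by
        rw [Real.sqrt_eq_rpow]
        push_cast
        rfl
      have e2 : √(√((N : ℝ) / ((k + 1 : ℕ) : ℝ) ^ 2)) = ((N : ℝ) / ((k : ℝ) + 1) ^ 2) ^ (1 / 4 : ℝ) := by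
        rw [Real.sqrt_eq_rpow, Real.sqrt_eq_rpow, ← Real.rpow_mul (by positivity)]
        push_cast
        norm_num
      rw [e1, e2] at hsum
      set E : ℝ := (((k : ℝ) + 1) / N) ^ (1 / 2 : ℝ) + ((N : ℝ) / ((k : ℝ) + 1) ^ 2) ^ (1 / 4 : ℝ) with hE
      have hE0 : 0 ≤ E := by positivity
      set S : ℝ := ∑ i, ∑ j, Pool.Agent.XPM.ff (inner ℝ (X i) (X j)) with hS
      push_cast at hsum
      have h3 : √2 * S / 2 = S / √2 := by
        rw [div_eq_div_iff (by norm_num) hs2.ne']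
        linear_combination S * hss
      rw [h3]
      have h4 : ((N : ℝ) ^ 2 - (N : ℝ) ^ 2 / (8 * ((k : ℝ) + 1)) - 5 / 16 * N) / √2 - C * N * E / √2
          ≤ S / √2 := by
        rw [← sub_div]
        exact div_le_div_of_nonneg_right hsum hs2.le
      have h5 : C * N * E / √2 ≤ C * N * E := by
        apply div_le_self (by positivity)
        rw [Real.one_le_sqrt]
        norm_num
      linarith

end Pool.Agent.Results.MP_b22a07_co.AsymptoticFormula
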