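import Mathlib

set_option autoImplicit false

/-!
MP_b22a07_co, THEOREM E: `√2 L(N,k) = N^2 - N^2/(8(k+1)) - (5/16) N + o(N)` for `k ≪ N ≪ k^2`.
Every statement below has its proof in the docstring.  Paper plan: /team-store/xpm_plan.txt.
-/

namespace Pool.Agent.XPM

open Finset

/-- For unit vectors `x`, `y`: `|x-y| = √2 * ff ⟨x,y⟩`. -/
noncomputable def ff (t : ℝ) : ℝ := √(1 - t)

/-- Taylor polynomial of degree 3 of `ff` at 0. -/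
noncomputable def t3 (t : ℝ) : ℝ := 1 - t / 2 - t ^ 2 / 8 - t ^ 3 / 16

/-- sign of a Boolean. -/
def sg (b : Bool) : ℝ := if b then 1 else -1

/-- **U1.** `t3 t > 0` on `[-1,1]` (`t3 t ≥ 5/16`) and
`(t3 t)^2 - (1-t) = t^4 (5/64 + t/64 + t^2/256) ≥ 0`. -/
def St_U1 : Prop := ∀ t : ℝ, -1 ≤ t → t ≤ 1 → ff t ≤ t3 t

/-- **U2.** `t3 t - (5/16) t^4 = (1-t) k` with `k = 1 + t/2 + (3/8) t^2 + (5/16) t^3`, and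
`1 - (1-t) k^2 = (t^4/256) (140 + 56 t + 35 t^2 + 25 t^3) ≥ 0` for `t ≥ -1`. So
`((1-t) k)^2 ≤ 1-t`. (At `t = 1` both sides are `0`.) -/
def St_U2 : Prop := ∀ t : ℝ, -1 ≤ t → t ≤ 1 → t3 t - 5 / 16 * t ^ 4 ≤ ff t

/-- **UB** (uses U1). With `t_ij = ⟨x_i,x_j⟩ ∈ [-1,1]`, `t_ii = 1`, `ff 1 = 0 = t3 1 - 5/16`: the left side is
at most `∑_ij t3 t_ij - (5/16) N`. And `∑_ij t_ij = ‖∑ x_i‖^2 ≥ 0`,
`∑_ij t_ij^2 = ∑_{a,b} (∑_i x_ia x_ib)^2 ≥ ∑_a (∑_i x_ia^2)^2 ≥ (∑_a ∑_i x_ia^2)^2/d = N^2/d` (Cauchy-Schwarz),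
`∑_ij t_ij^3 = ∑_{a,b,c} (∑_i x_ia x_ib x_ic)^2 ≥ 0`. -/
def St_UB : Prop := ∀ (d N : ℕ) (x : Fin N → EuclideanSpace ℝ (Fin d)), 0 < d →
  (∀ i, ‖x i‖ = 1) →
  ∑ i, ∑ j, ff (inner ℝ (x i) (x j)) ≤ (N : ℝ) ^ 2 - (N : ℝ) ^ 2 / (8 * d) - 5 / 16 * N

/-- The cone over the paraboloid: `h0 ≠ 0`, `h0 h3 = h1^2 - δ h2^2`. -/
def capH (p : ℕ) [Fact p.Prime] (δ : ZMod p) : Finset (Fin 4 → ZMod p) :=
  univ.filter (fun h => h 0 ≠ 0 ∧ h 0 * h 3 = h 1 ^ 2 - δ * h 2 ^ 2)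

/-- **K1.** `h ↦ (h0,h1,h2)` is a bijection onto the triples with `h0 ≠ 0` (`h3 = (h1^2 - δ h2^2)/h0`). -/
def St_K1 : Prop := ∀ (p : ℕ) [Fact p.Prime] (δ : ZMod p), (capH p δ).card = p ^ 2 * (p - 1)

/-- **K2.** If `a`, `b`, `a+b` lie in the cone then
`a0 b3 + b0 a3 - 2 a1 b1 + 2 δ a2 b2 = 0`; multiplied by `a0 b0` this is
`(a0 b1 - b0 a1)^2 - δ (a0 b2 - b0 a2)^2 = 0`, so (δ no square) `a0 b1 = b0 a1`, `a0 b2 = b0 a2`, hence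
(also for the last coordinate) `b = (b0/a0) • a`. So for each `a` at most `p` vectors `b`. -/
def St_K2 : Prop := ∀ (p : ℕ) [Fact p.Prime] (δ : ZMod p), ¬ IsSquare δ →
  ((capH p δ ×ˢ capH p δ).filter (fun z => z.1 + z.2 ∈ capH p δ)).card ≤ (capH p δ).card * p

/-- **K3.** Write `a = l • P`, `l = a0 ≠ 0`, `P = (1,x,y,x^2 - δ y^2)`, `x = a1/a0`, `y = a2/a0`. If `w - a` is in
the cone then `l * B(w,P) = Q(w)` with `Q(w) = w0 w3 - w1^2 + δ w2^2`,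
`B(w,P) = w0 (x^2 - δ y^2) + w3 - 2 w1 x + 2 δ w2 y`. For every `(x,y)` with `B ≠ 0` there is at most one `l`:
at most `p^2` such `a`. If `B(w,P) = 0` then `Q(w) = 0`; for `w0 ≠ 0`
`w0 B = (w0 x - w1)^2 - δ (w0 y - w2)^2 + Q(w)`, so `x = w1/w0`, `y = w2/w0`; for `w0 = 0` we get
`w1 = w2 = 0` and `B = w3 ≠ 0` (as `w ≠ 0`). So at most one `(x,y)`, at most `p` vectors `a`. -/
def St_K3 : Prop := ∀ (p : ℕ) [Fact p.Prime] (δ : ZMod p), ¬ IsSquare δ →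
  ∀ w : Fin 4 → ZMod p, w ≠ 0 →
  ((capH p δ).filter (fun a => w - a ∈ capH p δ)).card ≤ p ^ 2 + p

/-- **HF.** Harmonic frame. Take coordinates indexed by `H` (`Fin H.card ≃ H`):
`b x (h) = (Re ψ(h·x) + Im ψ(h·x)) / √|H|`, `ψ = ZMod.stdAddChar`, `h·x = ∑ h_i x_i`. Then
`|H| ⟨b x, b y⟩ = ∑_h (Re ψ(h·(x-y)) + Im ψ(h·(x+y)))`, `∑_h Im ψ(h·z) = 0` because `H = -H`, and
for the same reason `∑_h ψ(h·z)` is real. -/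
def St_HF : Prop := ∀ (p : ℕ) [Fact p.Prime] (H : Finset (Fin 4 → ZMod p)), (∀ h ∈ H, -h ∈ H) →
  H.Nonempty → ∃ b : (Fin 4 → ZMod p) → EuclideanSpace ℝ (Fin H.card), (∀ x, ‖b x‖ = 1) ∧
    ∀ x y, (((H.card : ℝ) * (inner ℝ (b x) (b y) : ℝ) : ℝ) : ℂ)
      = ∑ h ∈ H, ZMod.stdAddChar (∑ i, h i * (x i - y i))

/-- **HM.** Moments. `∑_{x,y} (∑_{h ∈ H} ψ(h·(x-y)))^e = p^4 ∑_z (∑_h ψ(h·z))^e`, and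
`∑_z ψ(u·z) = p^4` for `u = 0`, `0` otherwise. So `|H|^e ∑_{x,y} g^e = p^8 #{(h_1,...,h_e) : ∑ h_j = 0}`.
`e = 1`: none (`0 ∉ H`). `e = 2`: `|H|` pairs. `e = 3`: the pairs `(a,b)` with `a+b ∈ H` (`c = -(a+b)`,
`H = -H`). `e = 4`: `∑_w r(w) r(-w) = ∑_w r(w)^2`, `r(w) = #{a ∈ H : w - a ∈ H}`. -/
def St_HM : Prop := ∀ (p : ℕ) [Fact p.Prime] (H : Finset (Fin 4 → ZMod p)), (∀ h ∈ H, -h ∈ H) →
  (0 : Fin 4 → ZMod p) ∉ H → H.Nonempty →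
  ∀ g : (Fin 4 → ZMod p) → (Fin 4 → ZMod p) → ℝ,
  (∀ x y, (((H.card : ℝ) * g x y : ℝ) : ℂ) = ∑ h ∈ H, ZMod.stdAddChar (∑ i, h i * (x i - y i))) →
  (∑ x : Fin 4 → ZMod p, ∑ y : Fin 4 → ZMod p, g x y = 0) ∧
  (∑ x : Fin 4 → ZMod p, ∑ y : Fin 4 → ZMod p, g x y ^ 2 = (p : ℝ) ^ 8 / H.card) ∧
  (∑ x : Fin 4 → ZMod p, ∑ y : Fin 4 → ZMod p, g x y ^ 3
    = (p : ℝ) ^ 8 * ((H ×ˢ H).filter (fun z => z.1 + z.2 ∈ H)).card / (H.card : ℝ) ^ 3) ∧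
  (∑ x : Fin 4 → ZMod p, ∑ y : Fin 4 → ZMod p, g x y ^ 4
    = (p : ℝ) ^ 8 * (∑ w : Fin 4 → ZMod p, ((H.filter (fun a => w - a ∈ H)).card : ℝ) ^ 2)
      / (H.card : ℝ) ^ 4)

/-- **XB** (uses K1, K2, K3, HF, HM). The block. A non-square `δ` exists for `p ≥ 3`; `H = capH p δ`,
`n = |H| = p^2 (p-1)`, symmetric, without `0`. Reindex the points by `Fin (p^4)`. Third moment:
`p^8 n p / n^3 = p^4 p/(p-1)^2`. Fourth: `∑_w r(w)^2 ≤ r(0)^2 + (p^2+p) ∑_w r(w) = n^2 + (p^2+p) n^2`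
(`r(0) = n`, `∑_w r(w) = n^2`), and `p^8 (p^2+p+1) n^2/n^4 = p^4 (p^2+p+1)/(p-1)^2`. -/
def St_XB : Prop := ∀ p : ℕ, p.Prime → 3 ≤ p →
  ∃ b : Fin (p ^ 4) → EuclideanSpace ℝ (Fin (p ^ 2 * (p - 1))), (∀ i, ‖b i‖ = 1) ∧
    (∑ i, ∑ j, (inner ℝ (b i) (b j) : ℝ) = 0) ∧
    (∑ i, ∑ j, (inner ℝ (b i) (b j) : ℝ) ^ 2 = (p : ℝ) ^ 8 / ((p : ℝ) ^ 2 * ((p : ℝ) - 1))) ∧
    (∑ i, ∑ j, (inner ℝ (b i) (b j) : ℝ) ^ 3 ≤ (p : ℝ) ^ 4 * (p / ((p : ℝ) - 1) ^ 2)) ∧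
    (∑ i, ∑ j, (inner ℝ (b i) (b j) : ℝ) ^ 4
      ≤ (p : ℝ) ^ 4 * (((p : ℝ) ^ 2 + p + 1) / ((p : ℝ) - 1) ^ 2))

/-- **HA.** Hartley matrix `W j k = (cos(2π j k/m) + sin(2π j k/m))/√m`. `(cos a + sin a)(cos b + sin b)
= cos(a-b) + sin(a+b)`, and `∑_k exp(2π i l k/m) = m` if `m ∣ l`, else `0` (for integers `l`).
`(cos a + sin a)^2 ≤ 2`. -/
def St_HA : Prop := ∀ m : ℕ, 0 < m → ∃ W : Fin m → Fin m → ℝ,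
  (∀ j l, ∑ k, W j k * W l k = if j = l then 1 else 0) ∧ ∀ j k, (W j k) ^ 2 ≤ 2 / m

/-- **SY** (uses HA). `m` orthogonal copies of the block, flattened. Index by `Fin m × Fin N0` and
`Fin m × Fin n0` (`finProdFinEquiv`): `Y (j,x) (k,c) = W j k * b x c`. Then
`∑ Y(j,x) Y(l,z) = δ_jl ⟨b x, b z⟩`, `Y^2 ≤ (2/m) (b x c)^2 ≤ 2/m`. -/
def St_SY : Prop := ∀ (m n0 N0 : ℕ) (b : Fin N0 → EuclideanSpace ℝ (Fin n0)), 0 < m →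
  (∀ i, ‖b i‖ = 1) → ∃ Y : Fin (m * N0) → Fin (m * n0) → ℝ, (∀ i, ∑ c, Y i c ^ 2 = 1) ∧
    (∀ i c, (Y i c) ^ 2 ≤ 2 / m) ∧
    (∀ e : ℕ, 1 ≤ e → ∑ i, ∑ j, (∑ c, Y i c * Y j c) ^ e
      = m * ∑ i, ∑ j, (inner ℝ (b i) (b j) : ℝ) ^ e)

/-- **SG.** Moments of random signs (Khinchin). Induction on `d` (or expand). The odd moments vanish by
`ε ↦ not ε`; the fourth is `2^d (3 (∑ a^2)^2 - 2 ∑ a^4)`. -/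
def St_SG : Prop := ∀ (d : ℕ) (a : Fin d → ℝ),
  (∑ ε : Fin d → Bool, (∑ i, sg (ε i) * a i) = 0) ∧
  (∑ ε : Fin d → Bool, (∑ i, sg (ε i) * a i) ^ 2 = 2 ^ d * ∑ i, a i ^ 2) ∧
  (∑ ε : Fin d → Bool, (∑ i, sg (ε i) * a i) ^ 3 = 0) ∧
  (∑ ε : Fin d → Bool, (∑ i, sg (ε i) * a i) ^ 4 ≤ 3 * 2 ^ d * (∑ i, a i ^ 2) ^ 2)

/-- **AV** (uses U2, SG). Average over the cyclic shifts `s` and the signs. `t = ∑ x_i ε_i y_{i+s}` has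
`|t| ≤ 1` (Cauchy-Schwarz), so `ff t ≥ 1 - t/2 - t^2/8 - t^3/16 - (5/16) t^4` (U2). For fixed `s` use SG with
`a_i = x_i y_{i+s}`. `∑_s ∑_i a_i^2 = ∑_i x_i^2 ∑_s y_{i+s}^2 = 1`;
`(∑_i a_i^2)^2 ≤ κ ∑_i a_i^2` as `∑_i a_i^2 ≤ κ ∑ x_i^2 = κ`. So the sum is at least
`2^d (d - 1/8 - (5/16) 3 κ)`. -/
def St_AV : Prop := ∀ (d : ℕ) [NeZero d] (x y : Fin d → ℝ) (κ : ℝ), ∑ i, x i ^ 2 = 1 →
  ∑ i, y i ^ 2 = 1 → (∀ i, (y i) ^ 2 ≤ κ) →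
  (2 : ℝ) ^ d * (d - 1 / 8 - 15 / 16 * κ)
    ≤ ∑ s : Fin d, ∑ ε : Fin d → Bool, ff (∑ i, x i * (sg (ε i) * y (i + s)))

/-- **GR** (uses AV). Greedy union of `s` copies of the system `Y` (`M` vectors, `y^2 ≤ κ`). Induction on `s`:
given `X` with `s` copies, AV for all pairs `(X a i, Y j)` gives a shift `u` and signs `ε` with
`∑_{a,i,j} ff(⟨X a i, g Y j⟩) ≥ s M^2 (1 - 1/(8d) - (15/16) κ/d)`, `(g y)_c = ε_c y_{c+u}`; `g` keeps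
all inner products inside the copy. The new ordered pairs are twice this sum. -/
def St_GR : Prop := ∀ (d M : ℕ) [NeZero d] (Y : Fin M → Fin d → ℝ) (κ : ℝ),
  (∀ i, ∑ c, Y i c ^ 2 = 1) → (∀ i c, (Y i c) ^ 2 ≤ κ) → ∀ s : ℕ,
  ∃ X : Fin s → Fin M → Fin d → ℝ, (∀ a i, ∑ c, X a i c ^ 2 = 1) ∧
    (∀ a i j, ∑ c, X a i c * X a j c = ∑ c, Y i c * Y j c) ∧
    (s : ℝ) * ((s : ℝ) - 1) * (M : ℝ) ^ 2 * (1 - 1 / (8 * d) - 15 / 16 * κ / d)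
      ≤ ∑ a, ∑ b, if a = b then 0 else ∑ i, ∑ j, ff (∑ c, X a i c * X b j c)

/-- **TO** (uses U2, XB, SY). One system: `M = m p^4` vectors in dimension `d = m p^2 (p-1)`. U2 for all
pairs (equality on the diagonal) gives
`∑ ff ≥ M^2 - S1/2 - S2/8 - S3/16 - (5/16) S4`, `S1 = 0`, `S2 = m p^8/(p^2(p-1)) = M^2/d`,
`S3 ≤ M p/(p-1)^2`, `S4 ≤ M (p^2+p+1)/(p-1)^2`; and
`(1/16) p/(p-1)^2 + (5/16)(p^2+p+1)/(p-1)^2 = 5/16 + p/(p-1)^2`. -/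
def St_TO : Prop := ∀ p m : ℕ, p.Prime → 3 ≤ p → 0 < m →
  ∃ Y : Fin (m * p ^ 4) → Fin (m * (p ^ 2 * (p - 1))) → ℝ, (∀ i, ∑ c, Y i c ^ 2 = 1) ∧
    (∀ i c, (Y i c) ^ 2 ≤ 2 / m) ∧
    ((m : ℝ) * p ^ 4) ^ 2 * (1 - 1 / (8 * (m * ((p : ℝ) ^ 2 * (p - 1)))))
      - (5 / 16 + p / ((p : ℝ) - 1) ^ 2) * (m * p ^ 4)
      ≤ ∑ i, ∑ j, ff (∑ c, Y i c * Y j c)

/-- **CT** (uses TO, GR). `s` copies of the system of TO (`κ = 2/m`): with `N' = s m p^4`,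
`d = m n0`, `n0 = p^2 (p-1)`: `(15/16) κ N'^2/d = (15/8) n0 N'^2/d^2 ≤ 2 n0 N'^2/d^2`.
(`X : Fin s → Fin M → ..` is reindexed by `finProdFinEquiv`; vectors in `EuclideanSpace`.) -/
def St_CT : Prop := ∀ p m s : ℕ, p.Prime → 3 ≤ p → 0 < m → 0 < s →
  ∃ X : Fin (s * (m * p ^ 4)) → EuclideanSpace ℝ (Fin (m * (p ^ 2 * (p - 1)))),
    (∀ i, ‖X i‖ = 1) ∧
    ((s : ℝ) * (m * p ^ 4)) ^ 2 * (1 - 1 / (8 * (m * ((p : ℝ) ^ 2 * (p - 1))))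
        - 2 * ((p : ℝ) ^ 2 * (p - 1)) / (m * ((p : ℝ) ^ 2 * (p - 1))) ^ 2)
      - (5 / 16 + p / ((p : ℝ) - 1) ^ 2) * (s * (m * p ^ 4))
      ≤ ∑ i, ∑ j, ff (inner ℝ (X i) (X j))

/-- **RM.** Removing points. `ff 1 = 0`, so the diagonal does not count. If `N' > N ≥ 2`: the sum of the
rows is the total `S`; remove a point whose row sum is at most `S/N'`: the total becomes at least
`S (1 - 2/N') = S (N'-1)(N'-2)/(N'(N'-1))`. Induction on `N' - N`. -/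
def St_RM : Prop := ∀ (d N N' : ℕ) (X : Fin N' → EuclideanSpace ℝ (Fin d)), 2 ≤ N → N ≤ N' →
  (∀ i, ‖X i‖ = 1) → ∃ Y : Fin N → EuclideanSpace ℝ (Fin d), (∀ i, ‖Y i‖ = 1) ∧
    (N : ℝ) * (N - 1) / (N' * (N' - 1)) * ∑ i, ∑ j, ff (inner ℝ (X i) (X j))
      ≤ ∑ i, ∑ j, ff (inner ℝ (Y i) (Y j))

/-- **EM.** `ℝ^{d'}` in `ℝ^d` (extend by zeros; any isometric embedding). -/
def St_EM : Prop := ∀ (d d' N : ℕ) (X : Fin N → EuclideanSpace ℝ (Fin d')), d' ≤ d →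
  ∃ Y : Fin N → EuclideanSpace ℝ (Fin d), ∀ i j, (inner ℝ (Y i) (Y j) : ℝ) = inner ℝ (X i) (X j)

/-- **PE.** Making the points distinct. The function `(x_i) ↦ ∑ ff⟨x_i,x_j⟩` is continuous; choose the
points one after the other near the given ones, different from the previous ones: for a unit vector `v`
in dimension `≥ 2` take a unit vector `u ⟂ v`; the vectors `cos θ v + sin θ u`, `0 < θ < δ`, are infinitely many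
and tend to `v`. -/
def St_PE : Prop := ∀ (d N : ℕ) (X : Fin N → EuclideanSpace ℝ (Fin d)) (η : ℝ), 2 ≤ d → 0 < η →
  (∀ i, ‖X i‖ = 1) → ∃ Y : Fin N → EuclideanSpace ℝ (Fin d), Function.Injective Y ∧
    (∀ i, ‖Y i‖ = 1) ∧
    ∑ i, ∑ j, ff (inner ℝ (X i) (X j)) - η ≤ ∑ i, ∑ j, ff (inner ℝ (Y i) (Y j))

/-- **N1** (uses CT, RM, EM). For a prime `p ≥ 3`, `n0 = p^2 (p-1)`, `d ≥ 2 n0`, `N ≥ 2`: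
`∑ ff ≥ N^2 - N^2/(8d) - (5/16) N - p/(p-1)^2 N - 2 p d - 9 p^3 N^2/d^2`.
Proof. `m = ⌊d/n0⌋`, `d' = m n0 ∈ (d - n0, d]`, `d' ≥ d/2`, `M = m p^4 = d' p^2/(p-1) ≤ 2 p d` (even `≤ 1.5 p d`),
`s = ⌈N/M⌉`, `N' = s M ∈ [N, N+M)`. CT gives `S' ≥ N'^2 A - B N'` with
`A = 1 - 1/(8d') - 2 n0/d'^2`, `B = 5/16 + p/(p-1)^2`. RM: `S ≥ N(N-1)/(N'(N'-1)) S'
≥ N(N-1) [A + (A - B)/(N'-1)] = N^2 A - N A + (A - B) N(N-1)/(N'-1)`. Because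
`N(N-1)/(N'-1) ≤ N`, and `≥ N - M`: `S ≥ N^2 A - N A + A (N - M) - B N ≥ N^2 A - M - B N`.
(`0 ≤ A ≤ 1`: if `A < 0` the claim is trivial or treat `A M ≤ M` directly.) Finally
`N^2/(8d') - N^2/(8d) = N^2 (d-d')/(8 d d') ≤ N^2 n0/(4 d^2)` and `2 n0 N^2/d'^2 ≤ 8 n0 N^2/d^2`, `n0 ≤ p^3`. -/
def St_N1 : Prop := ∀ (p d N : ℕ), p.Prime → 3 ≤ p → 2 * (p ^ 2 * (p - 1)) ≤ d → 2 ≤ N →
  ∃ X : Fin N → EuclideanSpace ℝ (Fin d), (∀ i, ‖X i‖ = 1) ∧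
    (N : ℝ) ^ 2 - (N : ℝ) ^ 2 / (8 * d) - 5 / 16 * N - p / ((p : ℝ) - 1) ^ 2 * N - 2 * p * d
      - 9 * (p : ℝ) ^ 3 * (N : ℝ) ^ 2 / (d : ℝ) ^ 2
      ≤ ∑ i, ∑ j, ff (inner ℝ (X i) (X j))

/-- **N2** (uses N1, PE). Choice of `p`: for `d ≤ N ≤ d^2`, `d ≥ 2`, put `y = min (√(N/d)) (√√(d^2/N)) ≥ 1`. If `y ≤ 6`
take `p = 3` when `d ≥ 36`; else a prime `p ∈ [y/2, y]` (Bertrand, `Nat.exists_prime_lt_and_le_two_mul`), `p ≥ 3`;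
`p^4 ≤ y^4 ≤ d^2/N ≤ d`, so `2 p^2(p-1) ≤ 2 p^3 ≤ 2 d^(3/4) ≤ d` for `d ≥ 16`. Then (N1)
`p/(p-1)^2 ≤ 9/(4p) ≤ 9/(2y)`, `1/y ≤ √(d/N) + √√(N/d^2)`, `2 p d ≤ 2 y d ≤ 2 N √(d/N)`,
`9 p^3 N^2/d^2 ≤ 9 N y^3 (N/d^2) ≤ 9 N (N/d^2)^(1/4)`. For `d < 36`: the left side is
`≤ N^2 - C N √(d/N) ≤ N^2 - C N/√d ≤ 0` for large `C` (`N ≤ d^2 < 1296`), any distinct points do
(the sphere is infinite; or PE for constant `X`). -/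
def St_N2 : Prop := ∃ C : ℝ, 0 < C ∧ ∀ d N : ℕ, 2 ≤ d → d ≤ N → N ≤ d ^ 2 →
  ∃ X : Fin N → EuclideanSpace ℝ (Fin d), Function.Injective X ∧ (∀ i, ‖X i‖ = 1) ∧
    (N : ℝ) ^ 2 - (N : ℝ) ^ 2 / (8 * d) - 5 / 16 * N
      - C * N * (√((d : ℝ) / N) + √(√((N : ℝ) / (d : ℝ) ^ 2)))
      ≤ ∑ i, ∑ j, ff (inner ℝ (X i) (X j))

end Pool.Agent.XPM
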