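import Pool.Agent.XPM.St

/-!
# XPM U: polynomial bounds for `√(1 - t)`
-/

set_option autoImplicit false

namespace Pool.Agent.XPM

theorem thm_U1 : St_U1 := by
  intro t h1 h2
  unfold ff t3
  have e1 : t ^ 2 ≤ 1 := by nlinarith
  have e2 : t ^ 3 ≤ 1 := by nlinarith [sq_nonneg (t + 1), sq_nonneg t, mul_nonneg (sub_nonneg.2 h2) (sq_nonneg t)]
  refine Real.sqrt_le_iff.2 ⟨by linarith, ?_⟩
  have e3 : 0 ≤ t ^ 4 * (5 / 64 + t / 64 + t ^ 2 / 256) := by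
    refine mul_nonneg (by positivity) ?_
    nlinarith [sq_nonneg t]
  nlinarith [e3]

theorem thm_U2 : St_U2 := by
  intro t h1 h2
  unfold ff t3
  refine (le_abs_self _).trans (Real.abs_le_sqrt ?_)
  have e2 : -1 ≤ t ^ 3 := by
    nlinarith [mul_nonneg (by linarith : (0 : ℝ) ≤ 1 + t) (sq_nonneg (t - 1)), sq_nonneg t,
      mul_nonneg (by linarith : (0 : ℝ) ≤ 1 + t) (sub_nonneg.2 h2)]
  have e3 : 0 ≤ t ^ 4 / 256 * (140 + 56 * t + 35 * t ^ 2 + 25 * t ^ 3) := by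
    refine mul_nonneg (by positivity) ?_
    nlinarith [sq_nonneg t]
  have e4 : 0 ≤ (1 - t) * (t ^ 4 / 256 * (140 + 56 * t + 35 * t ^ 2 + 25 * t ^ 3)) :=
    mul_nonneg (sub_nonneg.2 h2) e3
  have e5 : (1 - t) - (1 - t / 2 - t ^ 2 / 8 - t ^ 3 / 16 - 5 / 16 * t ^ 4) ^ 2 =
      (1 - t) * (t ^ 4 / 256 * (140 + 56 * t + 35 * t ^ 2 + 25 * t ^ 3)) := by ring
  linarith

end Pool.Agent.XPM
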